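import Pool.Agent.H891.TY.Fam

/-! The covering inequality for the general members of covering families. -/

set_option autoImplicit false
set_option linter.overlappingInstances false
set_option linter.unusedSectionVars false

open FF IntermediateField Algebra Pool.Agent.W619.PQ Pool.Agent.W619.PL Pool.Agent.W619.TW
  Pool.Agent.W603.LV Pool.Agent.W619.Y Pool.Agent.Y174 Pool.Agent.Y173.QA Pool.Agent.H891.KS

namespace Pool.Agent.H891.TY

section

variable {k : Type} {K : Type} [Field k] [Field K] [Algebra k K] [CharZero k] [IsAlgClosed k]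

/-- **The covering inequality for sections.** -/
theorem cover (hess : Algebra.EssFiniteType k K) {n : ℕ} (hn : Algebra.trdeg k K = n)
    {D : Fin n → Derivation k (AlgebraicClosure K) (AlgebraicClosure K)}
    (hD : LinearIndependent (AlgebraicClosure K) D) {r q : ℕ} (hq : 1 ≤ q)
    (B : Fin r → IntermediateField k (AlgebraicClosure K)) (hB : ∀ j, IsAlgClosed (B j))
    {d f : Fin r → ℕ} (hd : ∀ j, Algebra.trdeg k (B j) = d j) (hf : ∀ j, d j + f j = n)
    (hf1 : ∀ j, 1 ≤ f j)
    (hcov : ∀ i, ∃ J : Finset (Fin r), q ≤ J.card ∧ ∀ j ∈ J, ∃ a : Fin n → AlgebraicClosure K,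
      (∀ m, ¬ m < i → a m = 0) ∧ ∀ b ∈ B j, (D i + ∑ m, a m • D m) b = 0)
    {δ : Place k K → ℝ} {δ' : ∀ j, MemDiv (B j)} (hδ : ∀ j, IsRestrMem (B j) δ (δ' j))
    {S : Finset K} {m b N : ℕ} {M : Fin r → ℕ} (hN : HasIndep k K n N (PairSec k K n δ S m b))
    (hM : ∀ j N', MemIndep (B j) (f j) (δ' j) S m b N' → N' ≤ M j) :
    N ^ q ≤ ∏ j, M j := by
  classical
  obtain ⟨y, hy⟩ := Pool.Agent.W636.PG.exists_basis k K n hn
  obtain ⟨E, hE⟩ := Pool.Agent.W636.PG.exists_duals k K n _ hy
  have hyΩ : IsTranscendenceBasis k (algebraMap K (AlgebraicClosure K) ∘ y) :=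
    hy.algebraMap_comp
  obtain ⟨G, hG⟩ := Pool.Agent.W636.PG.exists_duals k (AlgebraicClosure K) n _ hyΩ
  have hΩ0 : CharZero (AlgebraicClosure K) :=
    charZero_of_injective_algebraMap (algebraMap k (AlgebraicClosure K)).injective
  let g : Matrix (Fin n) (Fin n) (AlgebraicClosure K) :=
    Matrix.of fun i l => D i (algebraMap K (AlgebraicClosure K) (y l))
  have hDG : ∀ i z, D i z = ∑ l, g i l * G l z := by
    intro i z
    have h1 : D i z = (∑ l, D i ((algebraMap K (AlgebraicClosure K) ∘ y) l) • G l) z :=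
      congrArg (fun X : Derivation k (AlgebraicClosure K) (AlgebraicClosure K) => X z)
        (der_expand hyΩ hG (D i))
    rw [h1, Pool.Agent.W721.PG.EFF2.der_sum]
    rfl
  have hg : g.det ≠ 0 := by
    intro h0
    obtain ⟨v, hv0, hv⟩ := Matrix.exists_vecMul_eq_zero_iff.2 h0
    apply hv0
    have h1 : ∑ i, v i • D i = 0 := by
      apply Derivation.ext
      intro z
      rw [Pool.Agent.W721.PG.EFF2.der_sum]
      simp only [hDG, Finset.mul_sum]
      rw [Finset.sum_comm]
      refine Finset.sum_eq_zero fun l _ => ?_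
      have h2 : (Matrix.vecMul v g) l = 0 := congrFun hv l
      have h3 : ∑ i, v i * (g i l * G l z) = (Matrix.vecMul v g) l * G l z := by
        show _ = (∑ i, v i * g i l) * G l z
        rw [Finset.sum_mul]
        exact Finset.sum_congr rfl fun i _ => by ring
      rw [h3, h2, zero_mul]
    exact funext fun i => Fintype.linearIndependent_iff.1 hD v h1 i
  obtain ⟨ω, hli, hω⟩ := hN
  have hexp : ∀ X : Derivation k K K, ∃ a : Fin n → K, X = ∑ i, a i • E i :=
    fun X => ⟨_, der_expand hy hE X⟩
  have hlin := lin_frame hexp hli (fun l => (hω l).1) (one_ne_zero (α := K))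
  simp only [one_mul] at hlin
  have hlinΩ : LinearIndependent k fun l => algebraMap K (AlgebraicClosure K) (ω l E) :=
    hlin.map' (IsScalarTower.toAlgHom k K (AlgebraicClosure K)).toLinearMap
      (LinearMap.ker_eq_bot.2 (algebraMap K (AlgebraicClosure K)).injective)
  let W : Submodule k (AlgebraicClosure K) :=
    Submodule.span k (Set.range fun l => algebraMap K (AlgebraicClosure K) (ω l E))
  have hW : FiniteDimensional k W := FiniteDimensional.span_of_finite k (Set.finite_range _)
  have hWN : Module.finrank k W = N := by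
    rw [finrank_span_eq_card hlinΩ, Fintype.card_fin]
  have h1 := count (k := k) (E := G) (g := g) (ders_comm hyΩ hG)
    (fun a ha => ders_const hyΩ hG ha) hg W hq B (fun i => by
      obtain ⟨J, hJ, hJ'⟩ := hcov i
      refine ⟨J, hJ, fun j hj => ?_⟩
      obtain ⟨a, ha, hb⟩ := hJ' j hj
      refine ⟨a, ha, fun z hz => ?_⟩
      have h2 := hb z hz
      rw [← h2, Derivation.add_apply, Pool.Agent.W721.PG.EFF2.der_sum]
      simp only [hDG, Finset.mul_sum, add_mul, Finset.sum_mul]
      rw [Finset.sum_add_distrib, Finset.sum_comm]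
      congr 1
      refine Finset.sum_congr rfl fun l _ => Finset.sum_congr rfl fun m _ => ?_
      ring)
  rw [hWN] at h1
  refine h1.trans (Finset.prod_le_prod' fun j _ => ?_)
  have h2 : Submodule.span (B j) (W : Set (AlgebraicClosure K)) = Submodule.span (B j)
      (Set.range fun l => algebraMap K (AlgebraicClosure K) (ω l E)) := by
    apply le_antisymm
    · rw [Submodule.span_le]
      exact Submodule.span_subset_span k (B j) _
    · exact Submodule.span_mono Submodule.subset_span
  rw [h2]
  exact hM j _ (mem_rank hess hn hy hE (B j) (hB j) (hd j) (hf j) (hf1 j) (hδ j) S ω hω)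

end

end Pool.Agent.H891.TY
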