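import Pool.Agent.H891.TY.Value
import Pool.Agent.H891.KS.Count
import Pool.Agent.H891.RG.Half

/-! The covering inequality for subfields in special position with respect to a flag. -/

set_option autoImplicit false
set_option linter.unusedSectionVars false

open MvPolynomial

namespace Pool.Agent.H891.TY

section

variable {k Ω : Type*} [Field k] [Field Ω] [CharZero Ω] [Algebra k Ω] {n : ℕ}

/-- The vector field `∑ l, g i l E l`, plus a combination of the previous ones, kills `B`. -/
def Kills (E : Fin n → Derivation k Ω Ω) (g : Matrix (Fin n) (Fin n) Ω) (B : Set Ω)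
    (i : Fin n) : Prop :=
  ∃ a : Fin n → Ω, (∀ m, ¬ m < i → a m = 0) ∧
    ∀ b ∈ B, ∑ l, (g i l + ∑ m, a m * g m l) * E l b = 0

variable {E : Fin n → Derivation k Ω Ω} {g : Matrix (Fin n) (Fin n) Ω}

theorem ex_con (hg : g.det ≠ 0) {B : Set Ω} {i : Fin n} (hi : Kills E g B i)
    {y : PowerSeries (MvPolynomial (Fin n) Ω)} (hy : y ∈ con E B) (hy0 : y ≠ 0) :
    ex g y i = 0 := by
  obtain ⟨a, ha, hB⟩ := hi
  have h1 := low E hy (N := od y) (fun i hi => coeff_lt_od hi) hB
  have h0 : sb g (PowerSeries.coeff (od y) y) ≠ 0 := by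
    rw [Ne, map_eq_zero_iff _ (sb_inj hg)]
    exact coeff_od hy0
  refine lead_zero h0 i a ha ?_
  have h2 := congrArg (sb g) h1
  rw [map_zero, map_sum] at h2
  rw [← h2, pderiv_sb]
  simp only [pderiv_sb, Finset.mul_sum]
  rw [Finset.sum_comm, ← Finset.sum_add_distrib]
  refine Finset.sum_congr rfl fun l _ => ?_
  rw [map_mul, sb_C, C_add, map_sum, add_mul, Finset.sum_mul]
  congr 1
  refine Finset.sum_congr rfl fun m _ => ?_
  rw [C_mul]
  ring

/-- **The covering inequality.** -/
theorem count (hcomm : ∀ l m a, E l (E m a) = E m (E l a))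
    (hconst : ∀ a, (∀ l, E l a = 0) → ∃ c : k, algebraMap k Ω c = a) (hg : g.det ≠ 0)
    (W : Submodule k Ω) [FiniteDimensional k W] {r q : ℕ} (hq : 1 ≤ q)
    (B : Fin r → IntermediateField k Ω)
    (hcov : ∀ i, ∃ J : Finset (Fin r), q ≤ J.card ∧ ∀ j ∈ J, Kills E g (B j) i) :
    (Module.finrank k W) ^ q ≤
      ∏ j, Module.finrank (B j) (Submodule.span (B j) (W : Set Ω)) := by
  classical
  let e := Module.finBasis k W
  have he : LinearIndependent k fun i => (e i : Ω) :=
    e.linearIndependent.map' W.subtype (Submodule.ker_subtype W)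
  let V : Submodule Ω (PowerSeries (MvPolynomial (Fin n) Ω)) :=
    Submodule.span Ω (Set.range fun i => ser E (e i : Ω))
  have hli : LinearIndependent Ω fun i => ser E (e i : Ω) := by
    rw [Fintype.linearIndependent_iff]
    intro c hc
    refine th_indep E hcomm hconst he fun N => ?_
    have h1 := congrArg (PowerSeries.coeff N) hc
    rw [map_sum, map_zero] at h1
    rw [← h1]
    refine Finset.sum_congr rfl fun i _ => ?_
    rw [coeff_smul', coeff_ser, smul_eq_C_mul]
  have hfdV : FiniteDimensional Ω V := FiniteDimensional.span_of_finite Ω (Set.finite_range _)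
  have hrank : Module.finrank Ω V = Module.finrank k W := by
    show Module.finrank Ω (Submodule.span Ω (Set.range fun i => ser E (e i : Ω))) = _
    rw [finrank_span_eq_card hli, Fintype.card_fin]
  have hhom : ∀ y ∈ V, ∀ N, (PowerSeries.coeff N y).IsHomogeneous N := by
    intro y hy
    induction hy using Submodule.span_induction with
    | mem x hx =>
      obtain ⟨i, rfl⟩ := hx
      intro N
      show (PowerSeries.coeff N (ser E (e i : Ω))).IsHomogeneous N
      rw [coeff_ser]
      exact th_hom E N _
    | zero =>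
      intro N
      rw [map_zero]
      exact isHomogeneous_zero _ _ _
    | add x y _ _ hx hy =>
      intro N
      rw [map_add]
      exact (hx N).add (hy N)
    | smul c x _ hx =>
      intro N
      rw [coeff_smul', smul_eq_C_mul, ← zero_add N]
      exact (isHomogeneous_C _ _).mul ((zero_add N).symm ▸ hx N)
  obtain ⟨y, hyV, hy0, hinj⟩ := Pool.Agent.H891.RG.exists_distinct_of (vl g) V
    (fun w _ w' _ hw' h => leaf hg hw' h) (Module.finrank k W) hrank.ge
  have hexinj : Function.Injective fun l => ex g (y l) := by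
    intro l l' h
    apply hinj
    have h' : ex g (y l) = ex g (y l') := h
    show vl g (y l) = vl g (y l')
    rw [vl_eq_iff (hy0 l) (hy0 l')]
    refine ⟨?_, h'⟩
    rw [← ex_degree hg (hy0 l) (hhom _ (hyV l) _), ← ex_degree hg (hy0 l') (hhom _ (hyV l') _), h']
  let c : Fin (Module.finrank k W) → Fin n → ℚ := fun l i => (ex g (y l) i : ℚ)
  have hcinj : Function.Injective c := by
    intro l l' h
    apply hexinj
    show ex g (y l) = ex g (y l')
    ext i
    have h1 : (ex g (y l) i : ℚ) = (ex g (y l') i : ℚ) := congrFun h i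
    exact_mod_cast h1
  let I : Fin r → Finset (Fin n) := fun j => Finset.univ.filter fun i => Kills E g (B j) i
  have hI : ∀ i, q ≤ (Finset.univ.filter fun j => i ∈ I j).card := by
    intro i
    obtain ⟨J, hJ, hJ'⟩ := hcov i
    refine hJ.trans (Finset.card_le_card fun j hj => ?_)
    rw [Finset.mem_filter]
    exact ⟨Finset.mem_univ _, Finset.mem_filter.2 ⟨Finset.mem_univ _, hJ' j hj⟩⟩
  let S : Finset (Fin n → ℚ) := Finset.univ.image c
  have hScard : S.card = Module.finrank k W := by
    rw [Finset.card_image_of_injective _ hcinj, Finset.card_univ, Fintype.card_fin]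
  have hsh := Pool.Agent.H27.Shearer.shearer (ι := Fin n) (α := ℚ) (J := Fin r) 0 Finset.univ I q
    (Nat.lt_of_lt_of_le Nat.zero_lt_one hq) Finset.univ
    (fun i _ => (hI i).trans_eq (KS.card_inst _ _)) S
    (fun x _ y _ h => funext fun i => h i (Finset.mem_univ i))
  have hj : ∀ j, (S.image (Pool.Agent.H27.Shearer.proj 0 (I j))).card ≤
      Module.finrank (B j) (Submodule.span (B j) (W : Set Ω)) := by
    intro j
    -- representatives
    have hrep : ∀ b : ↥(S.image (Pool.Agent.H27.Shearer.proj 0 (I j))), ∃ l,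
        Pool.Agent.H27.Shearer.proj 0 (I j) (c l) = b := by
      intro b
      obtain ⟨x, hx, hxb⟩ := Finset.mem_image.1 b.2
      obtain ⟨l, -, rfl⟩ := Finset.mem_image.1 hx
      exact ⟨l, hxb⟩
    choose ρ hρ using hrep
    have hfd : FiniteDimensional (B j) (Submodule.span (B j) (W : Set Ω)) :=
      Pool.Agent.H891.RG.HalfVal.fd_span (B j) W
    let f := Module.finBasis (B j) (Submodule.span (B j) (W : Set Ω))
    have hlin : LinearIndependent (con E (B j : Set Ω)) fun b => y (ρ b) := by
      rw [linearIndependent_iff']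
      intro s a ha b hb
      by_contra hab
      let s' := s.filter fun b => a b ≠ 0
      have hs' : s'.Nonempty := ⟨b, Finset.mem_filter.2 ⟨hb, hab⟩⟩
      have hsum : ∑ b ∈ s', (a b : PowerSeries (MvPolynomial (Fin n) Ω)) * y (ρ b) = 0 := by
        rw [← ha, Finset.sum_filter_of_ne]
        · exact Finset.sum_congr rfl fun b _ => rfl
        · intro b _ h h0
          apply h
          rw [h0]
          exact zero_mul _
      have hane : ∀ b ∈ s', (a b : PowerSeries (MvPolynomial (Fin n) Ω)) ≠ 0 := fun b hb h =>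
        (Finset.mem_filter.1 hb).2 (Subtype.ext h)
      obtain ⟨b₁, hb₁, b₂, hb₂, hbb, hval⟩ := two_eq hg hs'
        (fun b hb => mul_ne_zero (hane b hb) (hy0 _)) hsum
      have h1 := ((vl_eq_iff (mul_ne_zero (hane _ hb₁) (hy0 _))
        (mul_ne_zero (hane _ hb₂) (hy0 _))).1 hval).2
      rw [ex_mul hg (hane _ hb₁) (hy0 _), ex_mul hg (hane _ hb₂) (hy0 _)] at h1
      apply hbb
      apply Subtype.ext
      rw [← hρ b₁, ← hρ b₂]
      funext i
      unfold Pool.Agent.H27.Shearer.proj
      by_cases hi : i ∈ I j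
      · rw [if_pos hi, if_pos hi]
        have h2 : ex g (a b₁ : PowerSeries (MvPolynomial (Fin n) Ω)) i + ex g (y (ρ b₁)) i =
            ex g (a b₂ : PowerSeries (MvPolynomial (Fin n) Ω)) i + ex g (y (ρ b₂)) i :=
          DFunLike.congr_fun h1 i
        have hk := (Finset.mem_filter.1 hi).2
        rw [ex_con hg hk (a b₁).2 (hane _ hb₁), ex_con hg hk (a b₂).2 (hane _ hb₂), zero_add,
          zero_add] at h2
        show (ex g (y (ρ b₁)) i : ℚ) = (ex g (y (ρ b₂)) i : ℚ)
        rw [h2]
      · rw [if_neg hi, if_neg hi]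
    have hspan : ∀ z ∈ V, z ∈ Submodule.span (con E (B j : Set Ω))
        (Set.range fun s => ser E (f s : Ω)) := by
      intro z hz
      induction hz using Submodule.span_induction with
      | mem x hx =>
        obtain ⟨i, rfl⟩ := hx
        have hmem : (e i : Ω) ∈ Submodule.span (B j) (W : Set Ω) :=
          Submodule.subset_span (e i).2
        have h2 := f.sum_repr ⟨(e i : Ω), hmem⟩
        have h3 := (congrArg (Submodule.subtype _) h2).symm
        rw [map_sum] at h3
        change (e i : Ω) = _ at h3
        show ser E (e i : Ω) ∈ _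
        rw [h3, ser_sum]
        refine Submodule.sum_mem _ fun s _ => ?_
        have h4 : (Submodule.subtype (Submodule.span (B j) (W : Set Ω)))
            ((f.repr ⟨(e i : Ω), hmem⟩) s • f s) =
            ((f.repr ⟨(e i : Ω), hmem⟩ s : B j) : Ω) * (f s : Ω) := rfl
        rw [h4, ser_mul]
        exact Submodule.smul_mem _ (⟨_, ser_mem E hcomm (f.repr ⟨(e i : Ω), hmem⟩ s).2⟩ :
          con E (B j : Set Ω)) (Submodule.subset_span ⟨s, rfl⟩)
      | zero => exact Submodule.zero_mem _
      | add x y _ _ hx hy => exact Submodule.add_mem _ hx hy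
      | smul c x _ hx =>
        have h4 : c • x = (⟨_, const_mem E (B j : Set Ω) c⟩ : con E (B j : Set Ω)) • x := by
          show c • x = PowerSeries.C (C c : MvPolynomial (Fin n) Ω) * x
          ext1 N
          rw [coeff_smul', PowerSeries.coeff_C_mul, smul_eq_C_mul]
        rw [h4]
        exact Submodule.smul_mem _ _ hx
    have h5 := linearIndependent_le_span_aux' (fun b => y (ρ b)) hlin
      (Set.range fun s => ser E (f s : Ω)) (by
        rintro _ ⟨b, rfl⟩
        exact hspan _ (hyV _))
    rw [Fintype.card_coe] at h5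
    refine h5.trans ?_
    have h6 := Fintype.card_range_le (fun s => ser E (f s : Ω))
    rw [Fintype.card_fin] at h6
    exact h6
  rw [hScard] at hsh
  have h3 : ((Module.finrank k W : ℕ) : ℝ) ^ q ≤
      ∏ j, ((Module.finrank (B j) (Submodule.span (B j) (W : Set Ω)) : ℕ) : ℝ) := by
    refine hsh.trans (Finset.prod_le_prod (fun _ _ => Nat.cast_nonneg _) fun j _ => ?_)
    exact Nat.cast_le.2 ((KS.card_image_inst _ _).trans_le (hj j))
  exact_mod_cast h3

end

end Pool.Agent.H891.TY
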