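import Pool.Graph.R_seed8.Y174.VDefs
import Pool.Graph.R_seed8.Y174.BDefs

/-! The general members of covering families. -/

set_option autoImplicit false
set_option linter.overlappingInstances false
set_option linter.unusedSectionVars false

open FF IntermediateField Pool.Agent.W619.TW Pool.Agent.Y174

namespace Pool.Agent.H891.TY

section

variable {k : Type} {K : Type} [Field k] [Field K] [Algebra k K]

/-- The field generated by `B` and `K` in the algebraic closure of `K`. -/
noncomputable def Mem (B : IntermediateField k (AlgebraicClosure K)) :
    IntermediateField B (AlgebraicClosure K) :=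
  IntermediateField.adjoin B (Set.range (algebraMap K (AlgebraicClosure K)))

/-- The function field of the general member of a covering family of subvarieties of the variety
with function field `K`. Here `B` is the algebraic closure of the function field of the parameter
space, in the algebraic closure of `K`; the field is generated by `B` and `K`. -/
def MemField (B : IntermediateField k (AlgebraicClosure K)) : Type := Mem B

variable (B : IntermediateField k (AlgebraicClosure K))

noncomputable instance : Field (MemField B) := (Mem B).toField

noncomputable instance : Algebra B (MemField B) := (Mem B).algebra'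

/-- The restriction of functions to the general member. -/
noncomputable def memHom : K →+* MemField B :=
  (algebraMap K (AlgebraicClosure K)).codRestrict (Mem B).toSubring fun a =>
    IntermediateField.subset_adjoin _ _ ⟨a, rfl⟩

noncomputable instance : Algebra K (MemField B) := (memHom B).toAlgebra

/-- An `ℝ`-divisor on the models of the general member, given by its multiplicities at the
divisorial places. -/
def MemDiv : Type := Place B (MemField B) → ℝ

/-- The divisor `δ'` on the general member is the restriction of the divisor `δ`. -/
def IsRestrMem (δ : Place k K → ℝ) (δ' : MemDiv B) : Prop := IsPullFib δ δ'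

open scoped Classical in
/-- There are `N` linearly independent sections of `m (K + Δ) + b A` on the general member, of
dimension `d`; the divisor `Δ` has the multiplicities `δ'`, and `A` is the restriction of the divisor
generated by the finite set `S` of functions. -/
def MemIndep (d : ℕ) (δ' : MemDiv B) (S : Finset K) (m b N : ℕ) : Prop :=
  HasIndep B (MemField B) d N (PairSec B (MemField B) d δ' (S.image (memHom B)) m b)

/-- `κ (F, K + Δ) ≤ a` for the general member `F`, in terms of the growth of the number of
sections: `h⁰ (F, m (K + Δ)) ≤ C m ^ a` for all `m ≥ 1`. -/
def MemKod (d : ℕ) (δ' : MemDiv B) (a : ℕ) : Prop :=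
  ∃ C : ℕ, ∀ m N : ℕ, 1 ≤ m → MemIndep B d δ' {1} m 0 N → N ≤ C * m ^ a

/-- `ν (F, K + Δ) ≤ a` for the general member `F`: for every divisor `A` (generated by a finite set
of functions) `h⁰ (F, m (K + Δ) + A) ≤ C m ^ a` for all `m ≥ 1`. -/
def MemNum (d : ℕ) (δ' : MemDiv B) (a : ℕ) : Prop :=
  PairNum B (MemField B) d δ' a

/-- `B` is the algebraic closure of the function field of the parameter space of a covering family of
subvarieties of dimension `f ≥ 1` of a variety of dimension `n`. -/
def IsFamily (n f : ℕ) : Prop :=
  IsAlgClosed B ∧ 1 ≤ f ∧ ∃ d : ℕ, Algebra.trdeg k B = d ∧ d + f = n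

/-- The tangent space of the general member at the general point of the variety: the derivations of
the algebraic closure of `K` which vanish on `B`. -/
noncomputable def Tan : Submodule (AlgebraicClosure K)
    (Derivation k (AlgebraicClosure K) (AlgebraicClosure K)) where
  carrier := {D | ∀ b ∈ B, D b = 0}
  add_mem' := fun {D D'} hD hD' b hb => by
    rw [Derivation.add_apply, hD b hb, hD' b hb, add_zero]
  zero_mem' := fun b _ => rfl
  smul_mem' := fun c D hD b hb => by
    rw [Derivation.smul_apply, hD b hb, smul_zero]

/-- There is a flag `U 1 ⊂ ... ⊂ U n` in the tangent space at the general point (`U i` is spanned by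
`D l`, `l ≤ i`) such that, for each `i`, at least `q` of the tangent spaces `T` of the general
members satisfy `U i ⊆ U (i - 1) + T`. -/
def FlagCover (n q : ℕ) {r : ℕ} (B : Fin r → IntermediateField k (AlgebraicClosure K)) : Prop :=
  ∃ D : Fin n → Derivation k (AlgebraicClosure K) (AlgebraicClosure K),
    LinearIndependent (AlgebraicClosure K) D ∧ ∀ i, ∃ J : Finset (Fin r), q ≤ J.card ∧
      ∀ j ∈ J, D i ∈ Submodule.span (AlgebraicClosure K) (D '' {l | l < i}) ⊔ Tan (B j)

end

end Pool.Agent.H891.TY
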