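import Pool.Agent.H891.TY.Geo
import Pool.Agent.H891.TY.Count

/-! Derivations of the algebraic closure. -/

set_option autoImplicit false
set_option linter.overlappingInstances false
set_option linter.unusedSectionVars false

open FF IntermediateField Algebra Pool.Agent.W619.PQ Pool.Agent.W619.PL Pool.Agent.W619.TW
  Pool.Agent.W603.LV Pool.Agent.W619.Y Pool.Agent.Y174 Pool.Agent.Y173.QA Pool.Agent.H891.KS

namespace Pool.Agent.H891.TY

section

variable {k Ω : Type} [Field k] [CharZero k] [Field Ω] [Algebra k Ω] {n : ℕ}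

theorem ders_comm {x : Fin n → Ω} (hx : IsTranscendenceBasis k x) {E : Fin n → Derivation k Ω Ω}
    (hE : ∀ i j, E i (x j) = if i = j then 1 else 0) (l m : Fin n) (a : Ω) :
    E l (E m a) = E m (E l a) := by
  have h1 : ⁅E l, E m⁆ = 0 := by
    rw [der_expand hx hE ⁅E l, E m⁆]
    refine Finset.sum_eq_zero fun b _ => ?_
    have h2 : ⁅E l, E m⁆ (x b) = 0 := by
      rw [Derivation.commutator_apply, hE, hE]
      have h3 : ∀ (p : Prop) [Decidable p] (D : Derivation k Ω Ω),
          D (if p then (1 : Ω) else 0) = 0 := by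
        intro p _ D
        split_ifs
        · exact D.map_one_eq_zero
        · exact map_zero D
      rw [h3, h3, sub_zero]
    rw [h2, zero_smul]
  have h2 := congrArg (fun D : Derivation k Ω Ω => D a) h1
  have h3 : ⁅E l, E m⁆ a = E l (E m a) - E m (E l a) := Derivation.commutator_apply a
  have h4 : ⁅E l, E m⁆ a = 0 := h2
  rw [h3] at h4
  exact sub_eq_zero.1 h4

theorem ders_const [IsAlgClosed k] {x : Fin n → Ω} (hx : IsTranscendenceBasis k x)
    {E : Fin n → Derivation k Ω Ω} (hE : ∀ i j, E i (x j) = if i = j then 1 else 0) {a : Ω}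
    (ha : ∀ l, E l a = 0) : ∃ c : k, algebraMap k Ω c = a := by
  classical
  by_cases halg : IsAlgebraic k a
  · have h1 : Algebra.IsAlgebraic k (IntermediateField.adjoin k ({a} : Set Ω)) :=
      IntermediateField.isAlgebraic_adjoin (fun x hx => by
        rw [Set.mem_singleton_iff.1 hx]
        exact halg.isIntegral)
    have h2 := IntermediateField.eq_bot_of_isAlgClosed_of_isAlgebraic
      (IntermediateField.adjoin k ({a} : Set Ω))
    have h3 : a ∈ IntermediateField.adjoin k ({a} : Set Ω) :=
      IntermediateField.subset_adjoin _ _ rfl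
    rw [h2] at h3
    exact IntermediateField.mem_bot.1 h3
  · exfalso
    have h1 : AlgebraicIndepOn k id ({a} : Set Ω) := by
      have : Subsingleton ({a} : Set Ω) := ⟨fun x y => Subtype.ext (x.2.trans y.2.symm)⟩
      exact (algebraicIndependent_singleton_iff (⟨a, rfl⟩ : ({a} : Set Ω))).2 halg
    obtain ⟨t, hat, ht⟩ := exists_isTranscendenceBasis_superset h1
    obtain ⟨G, hG⟩ := Pool.Agent.Y173.QA.exists_duals (k := k) (L := Ω) ht
    have h2 : G ⟨a, hat rfl⟩ a = 1 := by
      have h3 := hG ⟨a, hat rfl⟩ ⟨a, hat rfl⟩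
      rwa [if_pos rfl] at h3
    have h3 : G ⟨a, hat rfl⟩ a = (∑ b, G ⟨a, hat rfl⟩ (x b) • E b) a :=
      congrArg (fun D : Derivation k Ω Ω => D a) (der_expand hx hE (G ⟨a, hat rfl⟩))
    rw [h2, Pool.Agent.W721.PG.EFF2.der_sum] at h3
    have h4 : ∑ b, G ⟨a, hat rfl⟩ (x b) * E b a = 0 :=
      Finset.sum_eq_zero fun b _ => by rw [ha b, mul_zero]
    rw [h4] at h3
    exact one_ne_zero h3

end

end Pool.Agent.H891.TY
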