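import Pool.Agent.H891.TY.Ders
import Pool.Agent.H891.TY.Defs

/-! Sections on the general member of a covering family: the algebraic closure. -/

set_option autoImplicit false
set_option linter.overlappingInstances false
set_option linter.unusedSectionVars false

open FF IntermediateField Algebra Pool.Agent.W619.PQ Pool.Agent.W619.PL Pool.Agent.W619.TW
  Pool.Agent.W603.LV Pool.Agent.W619.Y Pool.Agent.Y174 Pool.Agent.Y173.QA Pool.Agent.H891.KS

namespace Pool.Agent.H891.TY

section

variable {k : Type} {K : Type} [Field k] [Field K] [Algebra k K]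

noncomputable instance (B : IntermediateField k (AlgebraicClosure K)) :
    Algebra k (MemField B) :=
  inferInstanceAs (Algebra k (Mem B))

instance (B : IntermediateField k (AlgebraicClosure K)) : IsScalarTower k B (MemField B) :=
  inferInstanceAs (IsScalarTower k B (Mem B))

/-- ranks over a larger field -/
theorem rank_up {L B M Ω : Type*} [Field L] [Field B] [Field M] [Field Ω] [Algebra L M]
    [Algebra B Ω] (i : L → B) (j : M →+* Ω)
    (hij : ∀ c : L, algebraMap B Ω (i c) = j (algebraMap L M c)) {N : ℕ} (w : Fin N → M) :
    Module.finrank B (Submodule.span B (Set.range fun l => j (w l))) ≤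
      Module.finrank L (Submodule.span L (Set.range w)) := by
  have hfd : FiniteDimensional L (Submodule.span L (Set.range w)) :=
    FiniteDimensional.span_of_finite L (Set.finite_range _)
  let e := Module.finBasis L (Submodule.span L (Set.range w))
  have h1 : Submodule.span B (Set.range fun l => j (w l)) ≤
      Submodule.span B (Set.range fun s => j (e s : M)) := by
    rw [Submodule.span_le]
    rintro _ ⟨l, rfl⟩
    have hmem : w l ∈ Submodule.span L (Set.range w) := Submodule.subset_span ⟨l, rfl⟩
    have h2 := (congrArg (Submodule.subtype _) (e.sum_repr ⟨w l, hmem⟩)).symm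
    rw [map_sum] at h2
    change w l = _ at h2
    show j (w l) ∈ Submodule.span B (Set.range fun s => j (e s : M))
    rw [h2, map_sum]
    refine Submodule.sum_mem _ fun s _ => ?_
    have h3 : j ((Submodule.subtype (Submodule.span L (Set.range w)))
        ((e.repr ⟨w l, hmem⟩) s • e s)) = i (e.repr ⟨w l, hmem⟩ s) • j (e s : M) := by
      rw [Algebra.smul_def, hij, ← map_mul, ← Algebra.smul_def]
      rfl
    rw [h3]
    exact Submodule.smul_mem _ _ (Submodule.subset_span ⟨s, rfl⟩)
  have hfd2 : FiniteDimensional B (Submodule.span B (Set.range fun s => j (e s : M))) :=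
    FiniteDimensional.span_of_finite B (Set.finite_range _)
  refine (Submodule.finrank_mono h1).trans ?_
  have h4 := finrank_range_le_card (R := B) (fun s => j (e s : M))
  rw [Fintype.card_fin] at h4
  exact h4

variable [CharZero k]

open scoped Classical in
/-- independent sections on the general member -/
theorem mem_rank (hess : Algebra.EssFiniteType k K) {n : ℕ} (hn : Algebra.trdeg k K = n)
    {y : Fin n → K} (hy : IsTranscendenceBasis k y) {E : Fin n → Derivation k K K}
    (hE : ∀ i j, E i (y j) = if i = j then 1 else 0)
    (B : IntermediateField k (AlgebraicClosure K)) (hB : IsAlgClosed B) {d f : ℕ}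
    (hd : Algebra.trdeg k B = d) (hf : d + f = n) (hf1 : 1 ≤ f)
    {δ : Place k K → ℝ} {δ' : MemDiv B} (hδ : IsRestrMem B δ δ') (S : Finset K) {m b N : ℕ}
    (ω : Fin N → (Fin n → Derivation k K K) → K) (hω : ∀ l, PairSec k K n δ S m b (ω l)) :
    MemIndep B f δ' S m b (Module.finrank B (Submodule.span B
      (Set.range fun l => algebraMap K (AlgebraicClosure K) (ω l E)))) := by
  obtain ⟨r, rfl⟩ : ∃ r, f = r + 1 := ⟨f - 1, by omega⟩
  subst hf
  obtain ⟨t, ht⟩ := Pool.Agent.W636.PG.exists_basis k B d hd
  -- the finite extension
  let K' : IntermediateField K (AlgebraicClosure K) :=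
    IntermediateField.adjoin K (Set.range fun i => (t i : AlgebraicClosure K))
  have hfin : FiniteDimensional K K' := by
    refine IntermediateField.finiteDimensional_adjoin fun z _ => ?_
    exact (Algebra.IsAlgebraic.isAlgebraic z).isIntegral
  have hKF : ∀ z : K', (z : AlgebraicClosure K) ∈ Mem B := by
    intro z
    have h1 : K'.toSubfield ≤ (Mem B).toSubfield := by
      rw [IntermediateField.adjoin_toSubfield, Subfield.closure_le]
      rintro w (⟨a, rfl⟩ | ⟨i, rfl⟩)
      · exact IntermediateField.subset_adjoin _ _ ⟨a, rfl⟩
      · exact (Mem B).algebraMap_mem (t i)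
    exact h1 z.2
  let _ : Algebra K' (MemField B) :=
    ((algebraMap K' (AlgebraicClosure K)).codRestrict (Mem B).toSubring hKF).toAlgebra
  let L : IntermediateField k K' :=
    B.comap (K'.val.restrictScalars k)
  have hLB : ∀ z : L, ((z : K') : AlgebraicClosure K) ∈ B := fun z => z.2
  let _ : Algebra L B :=
    (((algebraMap K' (AlgebraicClosure K)).comp (algebraMap L K')).codRestrict
      B.toSubring hLB).toAlgebra
  have _ : IsScalarTower k K' (AlgebraicClosure K) := IsScalarTower.of_algebraMap_eq fun c =>
    IsScalarTower.algebraMap_apply k K (AlgebraicClosure K) c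
  have _ : IsScalarTower L B (MemField B) := IsScalarTower.of_algebraMap_eq fun z => rfl
  have _ : IsScalarTower L K' (MemField B) := IsScalarTower.of_algebraMap_eq fun z => rfl
  have _ : IsScalarTower k K' (MemField B) := IsScalarTower.of_algebraMap_eq fun c =>
    Subtype.ext (IsScalarTower.algebraMap_apply k K' (AlgebraicClosure K) c)
  have _ : IsScalarTower k L B := IsScalarTower.of_algebraMap_eq fun c =>
    Subtype.ext (IsScalarTower.algebraMap_apply k K' (AlgebraicClosure K) c)
  have _ : IsScalarTower K K' (MemField B) := IsScalarTower.of_algebraMap_eq fun c =>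
    Subtype.ext (IsScalarTower.algebraMap_apply K K' (AlgebraicClosure K) c)
  have htL : ∀ i, (⟨(t i : AlgebraicClosure K),
      IntermediateField.subset_adjoin K _ ⟨i, rfl⟩⟩ : K') ∈ L := fun i => (t i).2
  have hBalg : Algebra.IsAlgebraic L B := by
    refine ⟨fun z => ?_⟩
    have h1 : IsAlgebraic (Algebra.adjoin k (Set.range t)) z := ht.isAlgebraic.isAlgebraic z
    have h2 : ∀ a : Algebra.adjoin k (Set.range t), ((a : B) : AlgebraicClosure K) ∈ K' := by
      intro a
      have h3 : Algebra.adjoin k (Set.range t) ≤
          (K'.restrictScalars k).toSubalgebra.comap B.val := by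
        rw [Algebra.adjoin_le_iff]
        rintro _ ⟨i, rfl⟩
        exact IntermediateField.subset_adjoin K _ ⟨i, rfl⟩
      exact h3 a.2
    let f : Algebra.adjoin k (Set.range t) →+* K' :=
      ((algebraMap B (AlgebraicClosure K)).comp
        (algebraMap (Algebra.adjoin k (Set.range t)) B)).codRestrict K' h2
    have h3 : ∀ a, f a ∈ L := fun a => (a : B).2
    refine isAlg_of_hom (f.codRestrict L h3) (fun a b hab => ?_) (fun a => Subtype.ext rfl) h1
    have h4 := congrArg (fun z : L => ((z : K') : AlgebraicClosure K)) hab
    exact Subtype.ext (Subtype.ext h4)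
  have hgenF : IntermediateField.adjoin B (Set.range (algebraMap K' (MemField B))) = ⊤ := by
    rw [_root_.eq_top_iff]
    intro z _
    have h1 : IntermediateField.adjoin B (Set.range (algebraMap K (AlgebraicClosure K))) ≤
        (IntermediateField.adjoin B (Set.range (algebraMap K' (MemField B)))).map (Mem B).val := by
      rw [IntermediateField.adjoin_le_iff]
      rintro _ ⟨a, rfl⟩
      exact ⟨algebraMap K' (MemField B) (algebraMap K K' a),
        IntermediateField.subset_adjoin _ _ ⟨_, rfl⟩, rfl⟩
    obtain ⟨w, hw, hwz⟩ := h1 z.2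
    have : w = z := Subtype.ext hwz
    rwa [this] at hw
  have hcl : ∀ z : K', IsIntegral L z → ∃ y : L, algebraMap L K' y = z := by
    intro z hz
    have _ : IsScalarTower L B (AlgebraicClosure K) := IsScalarTower.of_algebraMap_eq fun z => rfl
    have _ : IsScalarTower L K' (AlgebraicClosure K) := IsScalarTower.of_algebraMap_eq fun z => rfl
    have h1 : IsIntegral L (algebraMap K' (AlgebraicClosure K) z) := hz.algebraMap
    have h2 : IsIntegral B (algebraMap K' (AlgebraicClosure K) z) := h1.tower_top
    have h3 : Algebra.IsAlgebraic B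
        (IntermediateField.adjoin B {algebraMap K' (AlgebraicClosure K) z}) :=
      IntermediateField.isAlgebraic_adjoin (fun x hx => by
        rw [Set.mem_singleton_iff.1 hx]
        exact h2)
    have h4 := IntermediateField.eq_bot_of_isAlgClosed_of_isAlgebraic
      (IntermediateField.adjoin B {algebraMap K' (AlgebraicClosure K) z})
    have h5 : algebraMap K' (AlgebraicClosure K) z ∈
        IntermediateField.adjoin B {algebraMap K' (AlgebraicClosure K) z} :=
      IntermediateField.subset_adjoin _ _ rfl
    rw [h4] at h5
    obtain ⟨c, hc⟩ := IntermediateField.mem_bot.1 h5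
    have h6 : algebraMap K' (AlgebraicClosure K) z ∈ B := by
      rw [← hc]
      exact c.2
    exact ⟨⟨z, h6⟩, rfl⟩
  have hL : Algebra.trdeg k L = d := by
    have h1 := trdeg_add_eq k L (A := B)
    rw [hd, trdeg_eq_zero (R := L) (A := B), add_zero] at h1
    exact h1
  have h1 := fam_indep (K' := K') (L := L) (Λ := B) (F := MemField B) hess hgenF hcl hL hn hy hE hδ
    S ω hω
  exact HasIndep.mono h1 (rank_up (fun z : L => algebraMap L B z)
    (algebraMap K' (AlgebraicClosure K)) (fun c => rfl) fun l => algebraMap K K' (ω l E))

end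

end Pool.Agent.H891.TY
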