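import Pool.Agent.H891.TY.Main

/-! Flags in the tangent space at the general point. -/

set_option autoImplicit false
set_option linter.overlappingInstances false
set_option linter.unusedSectionVars false

open FF IntermediateField Algebra Pool.Agent.W619.PQ Pool.Agent.W619.PL Pool.Agent.W619.TW
  Pool.Agent.W603.LV Pool.Agent.W619.Y Pool.Agent.Y174 Pool.Agent.Y173.QA Pool.Agent.H891.KS

namespace Pool.Agent.H891.TY

section

variable {k : Type} {K : Type} [Field k] [Field K] [Algebra k K] [CharZero k]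

theorem mem_lower {Ω V : Type*} [Field Ω] [AddCommGroup V] [Module Ω V] {n : ℕ} (D : Fin n → V)
    (i : Fin n) {u : V} (hu : u ∈ Submodule.span Ω (D '' {l | l < i})) :
    ∃ a : Fin n → Ω, (∀ m, ¬ m < i → a m = 0) ∧ u = ∑ m, a m • D m := by
  classical
  induction hu using Submodule.span_induction with
  | mem x hx =>
    obtain ⟨l, hl, rfl⟩ := hx
    refine ⟨Pi.single l 1, fun m hm => ?_, ?_⟩
    · rw [Pi.single_eq_of_ne]
      rintro rfl
      exact hm hl
    · rw [Finset.sum_eq_single l]
      · rw [Pi.single_eq_same, one_smul]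
      · intro m _ hm
        rw [Pi.single_eq_of_ne hm, zero_smul]
      · intro h
        exact (h (Finset.mem_univ _)).elim
  | zero => exact ⟨0, fun _ _ => rfl, by simp⟩
  | add x y _ _ hx hy =>
    obtain ⟨a, ha, rfl⟩ := hx
    obtain ⟨b, hb, rfl⟩ := hy
    refine ⟨a + b, fun m hm => ?_, ?_⟩
    · rw [Pi.add_apply, ha m hm, hb m hm, add_zero]
    · rw [← Finset.sum_add_distrib]
      exact Finset.sum_congr rfl fun m _ => by rw [Pi.add_apply, add_smul]
  | smul c x _ hx =>
    obtain ⟨a, ha, rfl⟩ := hx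
    refine ⟨c • a, fun m hm => ?_, ?_⟩
    · rw [Pi.smul_apply, ha m hm, smul_zero]
    · rw [Finset.smul_sum]
      exact Finset.sum_congr rfl fun m _ => by rw [Pi.smul_apply, smul_assoc]

theorem flag_kills {n q r : ℕ} {B : Fin r → IntermediateField k (AlgebraicClosure K)}
    {D : Fin n → Derivation k (AlgebraicClosure K) (AlgebraicClosure K)}
    (hD : ∀ i, ∃ J : Finset (Fin r), q ≤ J.card ∧
      ∀ j ∈ J, D i ∈ Submodule.span (AlgebraicClosure K) (D '' {l | l < i}) ⊔ Tan (B j)) (i : Fin n) :
    ∃ J : Finset (Fin r), q ≤ J.card ∧ ∀ j ∈ J, ∃ a : Fin n → AlgebraicClosure K,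
      (∀ m, ¬ m < i → a m = 0) ∧ ∀ b ∈ B j, (D i + ∑ m, a m • D m) b = 0 := by
  obtain ⟨J, hJ, hJ'⟩ := hD i
  refine ⟨J, hJ, fun j hj => ?_⟩
  obtain ⟨u, hu, v, hv, huv⟩ := Submodule.mem_sup.1 (hJ' j hj)
  obtain ⟨a, ha, rfl⟩ := mem_lower D i hu
  refine ⟨fun m => -a m, fun m hm => by
    show -a m = 0
    rw [ha m hm, neg_zero], fun b hb => ?_⟩
  have h1 : D i + ∑ m, (-a m) • D m = v := by
    rw [← huv]
    simp only [neg_smul, Finset.sum_neg_distrib]
    abel
  rw [h1]
  exact hv b hb

/-- If the tangent spaces of the general members span the tangent space then there is a flag. -/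
theorem flag_of_span {n : ℕ} (hn : Algebra.trdeg k K = n) {r : ℕ}
    (B : Fin r → IntermediateField k (AlgebraicClosure K)) (hB : ⨆ j, Tan (B j) = ⊤) :
    FlagCover n 1 B := by
  classical
  obtain ⟨y, hy⟩ := Pool.Agent.W636.PG.exists_basis k K n hn
  have hyΩ : IsTranscendenceBasis k (algebraMap K (AlgebraicClosure K) ∘ y) :=
    hy.algebraMap_comp
  obtain ⟨G, hG⟩ := Pool.Agent.W636.PG.exists_duals k (AlgebraicClosure K) n _ hyΩ
  have hGli : LinearIndependent (AlgebraicClosure K) G := by
    rw [Fintype.linearIndependent_iff]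
    intro c hc i
    have h1 : (∑ l, c l • G l) ((algebraMap K (AlgebraicClosure K) ∘ y) i) = 0 := by
      rw [hc]
      rfl
    rw [Pool.Agent.W721.PG.EFF2.der_sum, Finset.sum_eq_single i] at h1
    · rwa [hG, if_pos rfl, mul_one] at h1
    · intro l _ hl
      rw [hG, if_neg hl, mul_zero]
    · intro h
      exact (h (Finset.mem_univ _)).elim
  have hGsp : ⊤ ≤ Submodule.span (AlgebraicClosure K) (Set.range G) := by
    intro X _
    rw [der_expand hyΩ hG X]
    exact Submodule.sum_mem _ fun b _ => Submodule.smul_mem _ _ (Submodule.subset_span ⟨b, rfl⟩)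
  let bG := Module.Basis.mk hGli hGsp
  have hfin : FiniteDimensional (AlgebraicClosure K)
      (Derivation k (AlgebraicClosure K) (AlgebraicClosure K)) := Module.Basis.finiteDimensional_of_finite bG
  have hrank : Module.finrank (AlgebraicClosure K)
      (Derivation k (AlgebraicClosure K) (AlgebraicClosure K)) = n := by
    rw [Module.finrank_eq_card_basis bG, Fintype.card_fin]
  let s : Set (Derivation k (AlgebraicClosure K) (AlgebraicClosure K)) := {X | ∃ j, X ∈ Tan (B j)}
  have hs : Submodule.span (AlgebraicClosure K) s = ⊤ := by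
    rw [_root_.eq_top_iff, ← hB]
    refine iSup_le fun j X hX => Submodule.subset_span ⟨j, hX⟩
  obtain ⟨b, hbs, hbspan, hbli⟩ := exists_linearIndependent (AlgebraicClosure K) s
  rw [hs] at hbspan
  have hbfin : Finite b := hbli.finite
  have hbF := Fintype.ofFinite b
  have hcard : Fintype.card b = n := by
    have h1 := finrank_span_eq_card hbli
    rw [Subtype.range_coe_subtype, Set.ofPred_mem_eq, hbspan, finrank_top, hrank] at h1
    exact h1.symm
  let e : Fin n ≃ b := (Fintype.equivFinOfCardEq hcard).symm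
  refine ⟨fun i => (e i : Derivation k (AlgebraicClosure K) (AlgebraicClosure K)),
    hbli.comp e e.injective, fun i => ?_⟩
  obtain ⟨j, hj⟩ := hbs (e i).2
  refine ⟨{j}, by rw [Finset.card_singleton], fun j' hj' => ?_⟩
  rw [Finset.mem_singleton.1 hj']
  exact Submodule.mem_sup_right hj

end

end Pool.Agent.H891.TY
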