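import Pool.Agent.H891.KS.Main
import Pool.Agent.H891.RG.Sec
import Pool.Graph.R_seed8.Y174.B6

/-! Sections on the general member of a covering family. -/

set_option autoImplicit false
set_option linter.overlappingInstances false
set_option linter.unusedSectionVars false

open FF IntermediateField Algebra Pool.Agent.W619.PQ Pool.Agent.W619.PL Pool.Agent.W619.TW
  Pool.Agent.W603.LV Pool.Agent.W619.Y Pool.Agent.Y174 Pool.Agent.Y173.QA Pool.Agent.H891.KS

namespace Pool.Agent.H891.TY

section

theorem finrank_mul' {L K : Type*} [Field L] [Field K] [Algebra L K] {c : K} (hc : c ≠ 0) {N : ℕ}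
    (f : Fin N → K) : Module.finrank L (Submodule.span L (Set.range fun l => c * f l)) =
      Module.finrank L (Submodule.span L (Set.range f)) := by
  have h3 : Submodule.span L (Set.range fun l => c * f l) =
      (Submodule.span L (Set.range f)).map (LinearMap.mulLeft L c) := by
    rw [Submodule.map_span, ← Set.range_comp]
    rfl
  rw [h3]
  exact LinearEquiv.finrank_eq (Submodule.equivMapOfInjective (LinearMap.mulLeft L c)
    (fun a b h => mul_left_cancel₀ hc h) _).symm

theorem HasIndep.mono {k K : Type*} [Field k] [Field K] [Algebra k K] {n N N' : ℕ}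
    {P : ((Fin n → Derivation k K K) → K) → Prop} (h : HasIndep k K n N P) (hN : N' ≤ N) :
    HasIndep k K n N' P := by
  obtain ⟨ω, hli, hω⟩ := h
  exact ⟨fun i => ω (Fin.castLE hN i), hli.comp _ (Fin.castLE_injective hN), fun i => hω _⟩

variable {k K K' L Λ F : Type} [Field k] [CharZero k] [Field K] [Field K'] [Field L] [Field Λ]
  [Field F] [Algebra k K] [Algebra k K'] [Algebra K K'] [IsScalarTower k K K']
  [FiniteDimensional K K'] [Algebra k L] [Algebra L K'] [IsScalarTower k L K'] [Algebra L Λ]
  [Algebra Λ F] [Algebra K' F] [Algebra L F] [IsScalarTower L Λ F] [IsScalarTower L K' F]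
  [Algebra k Λ] [Algebra k F] [IsScalarTower k Λ F] [IsScalarTower k K' F]
  [IsScalarTower k L Λ] [Algebra K F] [IsScalarTower K K' F]

/-- the determinant of a frame -/
theorem det_ne {n : ℕ} {y : Fin n → K} (hy : IsTranscendenceBasis k y) {z : Fin n → K}
    (hz : IsTranscendenceBasis k z) {E : Fin n → Derivation k K K}
    (hE : ∀ i j, E i (z j) = if i = j then 1 else 0) :
    (Matrix.of fun a b => E a (y b)).det ≠ 0 := by
  obtain ⟨G, hG⟩ := Pool.Agent.W636.PG.exists_duals k K n _ hy
  have h1 : (Matrix.of fun a b => E a (y b)) * (Matrix.of fun a b => G a (z b)) = 1 := by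
    ext a b
    rw [Matrix.mul_apply, Matrix.one_apply, ← hE a b]
    have h2 : E a (z b) = (∑ c, E a (y c) • G c) (z b) :=
      congrArg (fun D : Derivation k K K => D (z b)) (der_expand hy hG (E a))
    rw [h2, Pool.Agent.W721.PG.EFF2.der_sum]
    rfl
  intro h
  have h2 := congrArg Matrix.det h1
  rw [Matrix.det_mul, h, zero_mul, Matrix.det_one] at h2
  exact zero_ne_one h2

/-- independent sections on the general member of a covering family -/
theorem fam_indep (hess : Algebra.EssFiniteType k K) [Algebra.IsAlgebraic L Λ]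
    (hgenF : IntermediateField.adjoin Λ (Set.range (algebraMap K' F)) = ⊤)
    (hcl : ∀ x : K', IsIntegral L x → ∃ y : L, algebraMap L K' y = x)
    {d r : ℕ} (hL : Algebra.trdeg k L = d) (hn : Algebra.trdeg k K = (d + (r + 1) : ℕ))
    {y : Fin (d + (r + 1)) → K} (hy : IsTranscendenceBasis k y)
    {E : Fin (d + (r + 1)) → Derivation k K K}
    (hE : ∀ i j, E i (y j) = if i = j then 1 else 0)
    {δ : Place k K → ℝ} {δ' : Place Λ F → ℝ} (hδ : IsPullFib δ δ') [DecidableEq F]
    (S : Finset K) {m b N : ℕ} (ω : Fin N → (Fin (d + (r + 1)) → Derivation k K K) → K)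
    (hω : ∀ l, PairSec k K (d + (r + 1)) δ S m b (ω l)) :
    HasIndep Λ F (r + 1) (Module.finrank L (Submodule.span L
      (Set.range fun l => algebraMap K K' (ω l E))))
      (PairSec Λ F (r + 1) δ' (S.image (algebraMap K F)) m b) := by
  classical
  have hL0 : CharZero L := charZero_of_injective_algebraMap (algebraMap k L).injective
  have hK0 : CharZero K := charZero_of_injective_algebraMap (algebraMap k K).injective
  have hessK : Algebra.EssFiniteType k K' := Algebra.EssFiniteType.comp k K K'
  have hn' : Algebra.trdeg k K' = (d + (r + 1) : ℕ) := by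
    have h1 := trdeg_add_eq k K (A := K')
    rw [hn, trdeg_eq_zero, add_zero] at h1
    exact h1.symm
  obtain ⟨δK, hδK⟩ := exists_pull (k := k) (K := K) (L := K') δ
  have hfib : IsPullFib δK δ' := by
    intro v' w e' h
    obtain ⟨e, v, hwv⟩ := Pool.Agent.W73.PG.PULL.exists_over' (K := K) v'
    have h1 := hδK v v' e hwv
    have h2 := hδ v w (e' * e) ⟨Nat.mul_pos h.1 hwv.1, fun f => by
      rw [IsScalarTower.algebraMap_apply K K' F, h.2, hwv.2]
      push_cast
      ring⟩
    rw [h2, h1]
    have he' : (1 : ℝ) ≤ e' := by exact_mod_cast h.1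
    push_cast
    rcases le_total 0 (1 - (e : ℝ) * (1 - δ v)) with h3 | h3
    · rw [max_eq_right h3]
      congr 1
      ring
    · rw [max_eq_left h3, sub_zero, mul_one]
      have h4 : (1 : ℝ) ≤ e * (1 - δ v) := by linarith
      have h5 : (e' : ℝ) ≤ e' * (e * (1 - δ v)) := by nlinarith
      rw [max_eq_left, max_eq_left]
      · linarith
      · rw [mul_assoc]
        linarith
  obtain ⟨t, ht⟩ := Pool.Agent.W636.PG.exists_basis k L d hL
  obtain ⟨x', hx'⟩ := Pool.Agent.W636.PG.exists_basis L K' (r + 1) (trdeg_LK (L := L) hL hn')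
  have happ := basis_append ht hx'
  obtain ⟨E', hE'⟩ := Pool.Agent.W636.PG.exists_duals k K' _ _ happ
  let ω' : Fin N → (Fin (d + (r + 1)) → Derivation k K' K') → K' := fun l D =>
    (Matrix.of fun a b => D a (algebraMap K K' (y b))).det ^ m * algebraMap K K' (ω l E)
  have hω' : ∀ l, PairSec k K' (d + (r + 1)) δK (S.image (algebraMap K K')) m b (ω' l) :=
    fun l => pair_pull hess hn hδK y E hy hE (hω l)
  have h1 := fib_indep (Λ := Λ) hessK hgenF hcl hL hn' ht hx' hE' hfib (S.image (algebraMap K K'))
    ω' hω'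
  rw [Finset.image_image] at h1
  have h2 : (algebraMap K' F) ∘ (algebraMap K K') = algebraMap K F :=
    funext fun z => (IsScalarTower.algebraMap_apply K K' F z).symm
  rw [h2] at h1
  have hyK : IsTranscendenceBasis k (algebraMap K K' ∘ y) := by
    have h3 : AlgebraicIndependent k (algebraMap K K' ∘ y) :=
      hy.1.map' (f := IsScalarTower.toAlgHom k K K') (algebraMap K K').injective
    refine h3.isTranscendenceBasis_of_lift_trdeg_le_of_finite ?_
    rw [hn']
    simp
  have hdet := det_ne hyK happ hE'
  have h4 : (fun l => ω' l E') = fun l => (Matrix.of fun a b =>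
      E' a ((algebraMap K K' ∘ y) b)).det ^ m * algebraMap K K' (ω l E) := rfl
  rw [h4, finrank_mul' (pow_ne_zero _ hdet)] at h1
  exact h1

end

end Pool.Agent.H891.TY
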