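import Pool.Agent.H891.TY.Series

/-! Linear changes of variables and leading exponents. -/

set_option autoImplicit false
set_option linter.unusedSectionVars false

open MvPolynomial

namespace Pool.Agent.H891.TY

section

variable {Ω : Type*} [Field Ω] [CharZero Ω] {n : ℕ}

/-- The linear change of variables `X l ↦ ∑ i, g i l X i`. -/
noncomputable def sb (g : Matrix (Fin n) (Fin n) Ω) :
    MvPolynomial (Fin n) Ω →ₐ[Ω] MvPolynomial (Fin n) Ω :=
  aeval fun l => ∑ i, C (g i l) * X i

theorem sb_X (g : Matrix (Fin n) (Fin n) Ω) (l : Fin n) : sb g (X l) = ∑ i, C (g i l) * X i :=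
  aeval_X _ _

theorem sb_C (g : Matrix (Fin n) (Fin n) Ω) (a : Ω) : sb g (C a) = C a := by
  rw [← algebraMap_eq, AlgHom.commutes]

theorem sb_hom (g : Matrix (Fin n) (Fin n) Ω) {P : MvPolynomial (Fin n) Ω} {N : ℕ}
    (hP : P.IsHomogeneous N) : (sb g P).IsHomogeneous N := by
  rw [← one_mul N]
  refine hP.aeval _ fun l => IsHomogeneous.sum _ _ _ fun i _ => ?_
  rw [← zero_add 1]
  exact (isHomogeneous_C _ _).mul (isHomogeneous_X _ _)

theorem sb_comp (g h : Matrix (Fin n) (Fin n) Ω) (P : MvPolynomial (Fin n) Ω) :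
    sb h (sb g P) = sb (h * g) P := by
  have h1 : (sb h).comp (sb g) = sb (h * g) := by
    apply MvPolynomial.algHom_ext
    intro l
    rw [AlgHom.comp_apply, sb_X, sb_X, map_sum]
    simp only [map_mul, sb_C, sb_X, Matrix.mul_apply, map_sum, Finset.mul_sum, Finset.sum_mul]
    rw [Finset.sum_comm]
    refine Finset.sum_congr rfl fun i _ => Finset.sum_congr rfl fun j _ => ?_
    ring
  rw [← h1]
  rfl

theorem sb_one (P : MvPolynomial (Fin n) Ω) : sb 1 P = P := by
  have h1 : sb (1 : Matrix (Fin n) (Fin n) Ω) = AlgHom.id Ω _ := by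
    apply MvPolynomial.algHom_ext
    intro l
    rw [sb_X, Finset.sum_eq_single l]
    · rw [Matrix.one_apply_eq, C_1, one_mul]
      rfl
    · intro i _ hi
      rw [Matrix.one_apply_ne hi, C_0, zero_mul]
    · intro h
      exact (h (Finset.mem_univ _)).elim
  rw [h1]
  rfl

theorem sb_inj {g : Matrix (Fin n) (Fin n) Ω} (hg : g.det ≠ 0) : Function.Injective (sb g) := by
  intro P Q h
  have h1 := congrArg (sb g⁻¹) h
  rwa [sb_comp, sb_comp, Matrix.nonsing_inv_mul _ (isUnit_iff_ne_zero.2 hg), sb_one, sb_one] at h1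

theorem pderiv_sb (g : Matrix (Fin n) (Fin n) Ω) (i : Fin n) (P : MvPolynomial (Fin n) Ω) :
    pderiv i (sb g P) = ∑ l, C (g i l) * sb g (pderiv l P) := by
  classical
  induction P using MvPolynomial.induction_on with
  | C a =>
    rw [sb_C, pderiv_C, Finset.sum_eq_zero]
    intro l _
    rw [pderiv_C, map_zero, mul_zero]
  | add P Q hP hQ =>
    rw [map_add, map_add, hP, hQ, ← Finset.sum_add_distrib]
    exact Finset.sum_congr rfl fun l _ => by rw [map_add, map_add, mul_add]
  | mul_X P m hP =>
    have h1 : pderiv i (sb g (X m)) = C (g i m) := by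
      rw [sb_X, map_sum, Finset.sum_eq_single i]
      · rw [pderiv_C_mul, pderiv_X_self, mul_one]
      · intro j _ hj
        rw [pderiv_C_mul, pderiv_X_of_ne hj, mul_zero]
      · intro h
        exact (h (Finset.mem_univ _)).elim
    rw [map_mul, pderiv_mul, h1, hP]
    have h2 : ∀ l, C (g i l) * sb g (pderiv l (P * X m)) =
        C (g i l) * sb g (pderiv l P) * sb g (X m) +
        (if l = m then C (g i m) * sb g P else 0) := by
      intro l
      rw [pderiv_mul, map_add, map_mul, mul_add, ← mul_assoc]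
      congr 1
      by_cases hlm : l = m
      · rw [if_pos hlm, hlm, pderiv_X_self, mul_one]
      · rw [if_neg hlm, pderiv_X_of_ne (Ne.symm hlm), mul_zero, map_zero, mul_zero]
    simp only [h2]
    rw [Finset.sum_add_distrib, Finset.sum_ite_eq' Finset.univ m, if_pos (Finset.mem_univ _),
      Finset.sum_mul]
    ring

/-- The lexicographic monomial order. -/
noncomputable abbrev lx (n : ℕ) : MonomialOrder (Fin n) := MonomialOrder.lex

theorem lead_zero {P : MvPolynomial (Fin n) Ω} (hP : P ≠ 0) (i : Fin n) (a : Fin n → Ω)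
    (ha : ∀ m, ¬ m < i → a m = 0) (h : pderiv i P + ∑ m, C (a m) * pderiv m P = 0) :
    (lx n).degree P i = 0 := by
  classical
  by_contra hi
  obtain ⟨e, he⟩ : ∃ e, e = (lx n).degree P := ⟨_, rfl⟩
  rw [← he] at hi
  obtain ⟨e', he'⟩ : ∃ e', e = e' + Finsupp.single i 1 := by
    refine ⟨e - Finsupp.single i 1, ?_⟩
    ext j
    rw [Finsupp.add_apply, Finsupp.tsub_apply]
    by_cases hj : i = j
    · subst hj
      rw [Finsupp.single_eq_same]
      omega
    · rw [Finsupp.single_eq_of_ne (Ne.symm hj)]
      omega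
  have h1 := congrArg (coeff e') h
  rw [coeff_add, coeff_pderiv, ← he', coeff_sum, coeff_zero, Finset.sum_eq_zero, add_zero] at h1
  · have h2 : coeff e P ≠ 0 := by
      rw [he]
      exact MonomialOrder.coeff_degree_ne_zero_iff.2 hP
    rcases mul_eq_zero.1 h1 with h3 | h3
    · exact h2 h3
    · have h4 : ((e' i + 1 : ℕ) : Ω) ≠ 0 := Nat.cast_ne_zero.2 (Nat.succ_ne_zero _)
      apply h4
      rw [Nat.cast_add, Nat.cast_one]
      exact h3
  · intro m _
    by_cases hm : m < i
    · rw [coeff_C_mul, coeff_pderiv]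
      have h5 : coeff (e' + Finsupp.single m 1) P = 0 := by
        apply MonomialOrder.coeff_eq_zero_of_lt (m := lx n)
        rw [← he, he', MonomialOrder.lex_lt_iff]
        refine ⟨m, fun j hj => ?_, ?_⟩
        · show (e' + Finsupp.single i 1 : Fin n →₀ ℕ) j = (e' + Finsupp.single m 1 : Fin n →₀ ℕ) j
          rw [Finsupp.add_apply, Finsupp.add_apply, Finsupp.single_eq_of_ne (by
            intro h6
            rw [h6] at hj
            exact absurd (hj.trans hm) (lt_irrefl _)), Finsupp.single_eq_of_ne (by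
            intro h6
            rw [h6] at hj
            exact absurd hj (lt_irrefl _))]
        · show (e' + Finsupp.single i 1 : Fin n →₀ ℕ) m < (e' + Finsupp.single m 1 : Fin n →₀ ℕ) m
          rw [Finsupp.add_apply, Finsupp.add_apply, Finsupp.single_eq_same,
            Finsupp.single_eq_of_ne (by
              intro h6
              rw [h6] at hm
              exact absurd hm (lt_irrefl _))]
          omega
      rw [h5, zero_mul, mul_zero]
    · rw [ha m hm, C_0, zero_mul, coeff_zero]

end

end Pool.Agent.H891.TY
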