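import Pool.Agent.H891.TY.Taylor

/-! The Taylor series as a ring homomorphism, and the constants of a vector field. -/

set_option autoImplicit false
set_option linter.unusedSectionVars false

open MvPolynomial

namespace Pool.Agent.H891.TY

section

variable {k Ω : Type*} [Field k] [Field Ω] [CharZero Ω] [Algebra k Ω] {n : ℕ}

/-- The Taylor series of `a` at the generic point. -/
noncomputable def ser (E : Fin n → Derivation k Ω Ω) (a : Ω) :
    PowerSeries (MvPolynomial (Fin n) Ω) :=
  PowerSeries.mk fun N => th E N a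

/-- The coefficientwise derivative. -/
noncomputable def pd (l : Fin n) (y : PowerSeries (MvPolynomial (Fin n) Ω)) :
    PowerSeries (MvPolynomial (Fin n) Ω) :=
  PowerSeries.mk fun N => pderiv l (PowerSeries.coeff N y)

variable (E : Fin n → Derivation k Ω Ω)

theorem coeff_ser (N : ℕ) (a : Ω) : PowerSeries.coeff N (ser E a) = th E N a :=
  PowerSeries.coeff_mk _ _

theorem coeff_pd (l : Fin n) (N : ℕ) (y : PowerSeries (MvPolynomial (Fin n) Ω)) :
    PowerSeries.coeff N (pd l y) = pderiv l (PowerSeries.coeff N y) :=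
  PowerSeries.coeff_mk _ _

theorem ser_mul (a b : Ω) : ser E (a * b) = ser E a * ser E b := by
  ext1 N
  rw [PowerSeries.coeff_mul, coeff_ser, ← th_mul]
  exact Finset.sum_congr rfl fun p _ => by rw [coeff_ser, coeff_ser]

theorem ser_add (a b : Ω) : ser E (a + b) = ser E a + ser E b := by
  ext1 N
  rw [map_add, coeff_ser, coeff_ser, coeff_ser, th_add]

theorem ser_zero : ser E (0 : Ω) = 0 := by
  ext1 N
  rw [map_zero, coeff_ser, th_zero']

theorem ser_one : ser E (1 : Ω) = 1 := by
  ext1 N
  rw [coeff_ser, PowerSeries.coeff_one]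
  rcases N with _ | N
  · rw [if_pos rfl, th_zero, C_1]
  · rw [if_neg (Nat.succ_ne_zero N), th_one]

theorem ser_sum {ι : Type*} (s : Finset ι) (a : ι → Ω) :
    ser E (∑ i ∈ s, a i) = ∑ i ∈ s, ser E (a i) := by
  classical
  induction s using Finset.induction_on with
  | empty => rw [Finset.sum_empty, Finset.sum_empty, ser_zero]
  | insert i s hi ih => rw [Finset.sum_insert hi, Finset.sum_insert hi, ser_add, ih]

theorem pd_add (l : Fin n) (y y' : PowerSeries (MvPolynomial (Fin n) Ω)) :
    pd l (y + y') = pd l y + pd l y' := by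
  ext1 N
  rw [map_add, coeff_pd, coeff_pd, coeff_pd, map_add, map_add]

theorem pd_zero (l : Fin n) : pd l (0 : PowerSeries (MvPolynomial (Fin n) Ω)) = 0 := by
  ext1 N
  rw [coeff_pd, map_zero, map_zero]

theorem pd_neg (l : Fin n) (y : PowerSeries (MvPolynomial (Fin n) Ω)) :
    pd l (-y) = -pd l y := by
  ext1 N
  rw [coeff_pd, map_neg, map_neg, map_neg, coeff_pd]

theorem pd_mul (l : Fin n) (y y' : PowerSeries (MvPolynomial (Fin n) Ω)) :
    pd l (y * y') = pd l y * y' + y * pd l y' := by
  ext1 N
  rw [coeff_pd, map_add, PowerSeries.coeff_mul, PowerSeries.coeff_mul, PowerSeries.coeff_mul,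
    map_sum, ← Finset.sum_add_distrib]
  refine Finset.sum_congr rfl fun p _ => ?_
  rw [coeff_pd, coeff_pd, pderiv_mul]

theorem pd_const (l : Fin n) (a : Ω) : pd l (PowerSeries.C (C a : MvPolynomial (Fin n) Ω)) = 0 := by
  ext1 N
  rw [coeff_pd, map_zero, PowerSeries.coeff_C]
  split_ifs
  · exact pderiv_C
  · exact map_zero _

theorem pd_ser (hcomm : ∀ l m a, E l (E m a) = E m (E l a)) (l : Fin n) (a : Ω) :
    pd l (ser E a) = PowerSeries.X * ser E (E l a) := by
  ext1 N
  rw [coeff_pd, coeff_ser]
  rcases N with _ | N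
  · rw [th_zero, pderiv_C, PowerSeries.coeff_zero_X_mul]
  · rw [th_pderiv E hcomm, PowerSeries.coeff_succ_X_mul, coeff_ser]

/-- The vector field with the coefficients `d`, extended to the power series. -/
noncomputable def lift (d : Fin n → Ω) (y : PowerSeries (MvPolynomial (Fin n) Ω)) :
    PowerSeries (MvPolynomial (Fin n) Ω) :=
  ∑ l, ser E (d l) * pd l y

theorem lift_add (d : Fin n → Ω) (y y' : PowerSeries (MvPolynomial (Fin n) Ω)) :
    lift E d (y + y') = lift E d y + lift E d y' := by
  unfold lift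
  rw [← Finset.sum_add_distrib]
  exact Finset.sum_congr rfl fun l _ => by rw [pd_add, mul_add]

theorem lift_mul (d : Fin n → Ω) (y y' : PowerSeries (MvPolynomial (Fin n) Ω)) :
    lift E d (y * y') = lift E d y * y' + y * lift E d y' := by
  unfold lift
  rw [Finset.sum_mul, Finset.mul_sum, ← Finset.sum_add_distrib]
  exact Finset.sum_congr rfl fun l _ => by rw [pd_mul]; ring

theorem lift_zero (d : Fin n → Ω) : lift E d 0 = 0 := by
  unfold lift
  exact Finset.sum_eq_zero fun l _ => by rw [pd_zero, mul_zero]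

theorem lift_neg (d : Fin n → Ω) (y : PowerSeries (MvPolynomial (Fin n) Ω)) :
    lift E d (-y) = -lift E d y := by
  unfold lift
  rw [← Finset.sum_neg_distrib]
  exact Finset.sum_congr rfl fun l _ => by rw [pd_neg, mul_neg]

theorem lift_const (d : Fin n → Ω) (a : Ω) :
    lift E d (PowerSeries.C (C a : MvPolynomial (Fin n) Ω)) = 0 := by
  unfold lift
  exact Finset.sum_eq_zero fun l _ => by rw [pd_const, mul_zero]

theorem lift_ser (hcomm : ∀ l m a, E l (E m a) = E m (E l a)) (d : Fin n → Ω) (a : Ω) :
    lift E d (ser E a) = PowerSeries.X * ser E (∑ l, d l * E l a) := by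
  unfold lift
  rw [ser_sum, Finset.mul_sum]
  refine Finset.sum_congr rfl fun l _ => ?_
  rw [pd_ser E hcomm, ser_mul]
  ring

/-- The power series which are killed by the vector fields which kill `B`. -/
noncomputable def con (B : Set Ω) : Subring (PowerSeries (MvPolynomial (Fin n) Ω)) where
  carrier := {y | ∀ d : Fin n → Ω, (∀ b ∈ B, ∑ l, d l * E l b = 0) → lift E d y = 0}
  mul_mem' := by
    intro y y' hy hy' d hd
    rw [lift_mul, hy d hd, hy' d hd, zero_mul, mul_zero, add_zero]
  one_mem' := by
    intro d _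
    have h := lift_const E d 1
    rwa [C_1, map_one] at h
  add_mem' := by
    intro y y' hy hy' d hd
    rw [lift_add, hy d hd, hy' d hd, add_zero]
  zero_mem' := fun d _ => lift_zero E d
  neg_mem' := by
    intro y hy d hd
    rw [lift_neg, hy d hd, neg_zero]

theorem ser_mem (hcomm : ∀ l m a, E l (E m a) = E m (E l a)) {B : Set Ω} {b : Ω} (hb : b ∈ B) :
    ser E b ∈ con E B := by
  intro d hd
  rw [lift_ser E hcomm, hd b hb, ser_zero, mul_zero]

theorem const_mem (B : Set Ω) (a : Ω) :
    PowerSeries.C (C a : MvPolynomial (Fin n) Ω) ∈ con E B :=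
  fun d _ => lift_const E d a

/-- The lowest coefficient of an element of `con E B`. -/
theorem low {B : Set Ω} {y : PowerSeries (MvPolynomial (Fin n) Ω)} (hy : y ∈ con E B) {N : ℕ}
    (hN : ∀ i < N, PowerSeries.coeff i y = 0) {d : Fin n → Ω}
    (hd : ∀ b ∈ B, ∑ l, d l * E l b = 0) :
    ∑ l, C (d l) * pderiv l (PowerSeries.coeff N y) = 0 := by
  have h1 := congrArg (PowerSeries.coeff N) (hy d hd)
  rw [map_zero] at h1
  rw [← h1]
  unfold lift
  rw [map_sum]
  refine Finset.sum_congr rfl fun l _ => ?_
  rw [PowerSeries.coeff_mul, Finset.sum_eq_single (0, N)]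
  · rw [coeff_ser, th_zero, coeff_pd]
  · rintro ⟨i, j⟩ hij hne
    have h2 : i + j = N := Finset.HasAntidiagonal.mem_antidiagonal.1 hij
    have h3 : j < N := by
      by_contra hcon
      apply hne
      have h4 : j = N := by omega
      have h5 : i = 0 := by omega
      rw [h4, h5]
    show _ * PowerSeries.coeff j (pd l y) = 0
    rw [coeff_pd, hN j h3, map_zero, mul_zero]
  · intro h
    exact (h (Finset.HasAntidiagonal.mem_antidiagonal.2 (zero_add N))).elim

end

end Pool.Agent.H891.TY
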