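import Mathlib

/-! Taylor series at the generic point, for commuting derivations. -/

set_option autoImplicit false
set_option linter.unusedSectionVars false

open MvPolynomial

namespace Pool.Agent.H891.TY

section

variable {k Ω : Type*} [Field k] [Field Ω] [CharZero Ω] [Algebra k Ω] {n : ℕ}

/-- The homogeneous part of degree `N` of the Taylor series of `a` at the generic point:
`(∑ X l ∂ l) ^ N a / N!`. -/
noncomputable def th (E : Fin n → Derivation k Ω Ω) : ℕ → Ω → MvPolynomial (Fin n) Ω
  | 0, a => C a
  | N + 1, a => C ((N + 1 : Ω)⁻¹) * ∑ l, X l * th E N (E l a)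

variable (E : Fin n → Derivation k Ω Ω)

theorem th_zero (a : Ω) : th E 0 a = C a := rfl

theorem th_succ (N : ℕ) (a : Ω) :
    th E (N + 1) a = C ((N + 1 : Ω)⁻¹) * ∑ l, X l * th E N (E l a) := rfl

theorem th_succ' (N : ℕ) (a : Ω) :
    C (N + 1 : Ω) * th E (N + 1) a = ∑ l, X l * th E N (E l a) := by
  have h : (N + 1 : Ω) ≠ 0 := Nat.cast_add_one_ne_zero N
  rw [th_succ, ← mul_assoc, ← C_mul, mul_inv_cancel₀ h, C_1, one_mul]

theorem th_add (N : ℕ) (a b : Ω) : th E N (a + b) = th E N a + th E N b := by
  induction N generalizing a b with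
  | zero => rw [th_zero, th_zero, th_zero, C_add]
  | succ N ih =>
    simp only [th_succ, map_add, ih, mul_add, Finset.sum_add_distrib]

theorem th_zero' (N : ℕ) : th E N (0 : Ω) = 0 := by
  induction N with
  | zero => rw [th_zero, C_0]
  | succ N ih => simp only [th_succ, map_zero, ih, mul_zero, Finset.sum_const_zero]

theorem th_sum (N : ℕ) {ι : Type*} (s : Finset ι) (a : ι → Ω) :
    th E N (∑ i ∈ s, a i) = ∑ i ∈ s, th E N (a i) := by
  classical
  induction s using Finset.induction_on with
  | empty => rw [Finset.sum_empty, Finset.sum_empty, th_zero']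
  | insert i s hi ih => rw [Finset.sum_insert hi, Finset.sum_insert hi, th_add, ih]

theorem th_one (N : ℕ) : th E (N + 1) (1 : Ω) = 0 := by
  rw [th_succ, Finset.sum_eq_zero, mul_zero]
  intro l _
  rw [Derivation.map_one_eq_zero, th_zero', mul_zero]

theorem th_const (N : ℕ) (c : k) : th E (N + 1) (algebraMap k Ω c) = 0 := by
  rw [th_succ, Finset.sum_eq_zero, mul_zero]
  intro l _
  rw [Derivation.map_algebraMap, th_zero', mul_zero]

theorem th_hom (N : ℕ) (a : Ω) : (th E N a).IsHomogeneous N := by
  induction N generalizing a with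
  | zero => exact isHomogeneous_C _ _
  | succ N ih =>
    rw [th_succ, ← zero_add (N + 1)]
    refine (isHomogeneous_C _ _).mul (IsHomogeneous.sum _ _ _ fun l _ => ?_)
    rw [add_comm]
    exact (isHomogeneous_X _ _).mul (ih _)

theorem anti_succ {R : Type*} [CommRing R] (N : ℕ) (f : ℕ → R) (g : ℕ → R) :
    ∑ p ∈ Finset.HasAntidiagonal.antidiagonal (N + 1), ((p.1 + p.2 : ℕ) : R) * (f p.1 * g p.2) =
      ∑ p ∈ Finset.HasAntidiagonal.antidiagonal N, (((p.1 + 1 : ℕ) : R) * f (p.1 + 1) * g p.2 +
        f p.1 * (((p.2 + 1 : ℕ) : R) * g (p.2 + 1))) := by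
  have h1 : ∀ p : ℕ × ℕ, ((p.1 + p.2 : ℕ) : R) * (f p.1 * g p.2) =
      ((p.1 : ℕ) : R) * (f p.1 * g p.2) + ((p.2 : ℕ) : R) * (f p.1 * g p.2) := by
    intro p
    push_cast
    ring
  simp only [h1]
  rw [Finset.sum_add_distrib, Finset.Nat.sum_antidiagonal_succ, Finset.Nat.sum_antidiagonal_succ']
  simp only [Nat.cast_zero, zero_mul, zero_add]
  rw [← Finset.sum_add_distrib]
  refine Finset.sum_congr rfl fun p _ => ?_
  ring

/-- The Taylor series is multiplicative. -/
theorem th_mul (N : ℕ) (a b : Ω) :
    ∑ p ∈ Finset.HasAntidiagonal.antidiagonal N, th E p.1 a * th E p.2 b = th E N (a * b) := by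
  induction N generalizing a b with
  | zero =>
    rw [Finset.Nat.antidiagonal_zero, Finset.sum_singleton, th_zero, th_zero, th_zero, C_mul]
  | succ N ih =>
    have h : (N + 1 : Ω) ≠ 0 := Nat.cast_add_one_ne_zero N
    have hC : (C (N + 1 : Ω) : MvPolynomial (Fin n) Ω) ≠ 0 := by
      rw [Ne, C_eq_zero]
      exact h
    apply mul_left_cancel₀ hC
    rw [th_succ']
    have h1 : ∀ M : ℕ, ((M + 1 : ℕ) : MvPolynomial (Fin n) Ω) = C (M + 1 : Ω) := by
      intro M
      rw [← Nat.cast_succ, ← map_natCast (C : Ω →+* MvPolynomial (Fin n) Ω)]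
    have h2 := anti_succ N (fun i => th E i a) (fun i => th E i b)
    have h3 : ∑ p ∈ Finset.HasAntidiagonal.antidiagonal (N + 1), ((p.1 + p.2 : ℕ) : MvPolynomial (Fin n) Ω) *
        (th E p.1 a * th E p.2 b) =
        C (N + 1 : Ω) * ∑ p ∈ Finset.HasAntidiagonal.antidiagonal (N + 1), th E p.1 a * th E p.2 b := by
      rw [Finset.mul_sum]
      refine Finset.sum_congr rfl fun p hp => ?_
      rw [Finset.HasAntidiagonal.mem_antidiagonal.1 hp, h1]
    rw [← h3, h2]
    simp only [h1, th_succ', Derivation.leibniz, smul_eq_mul]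
    have h4 : ∀ l, th E N (a * E l b + b * E l a) =
        ∑ p ∈ Finset.HasAntidiagonal.antidiagonal N, (th E p.1 a * th E p.2 (E l b) +
          th E p.1 (E l a) * th E p.2 b) := by
      intro l
      rw [th_add, mul_comm b, ← ih, ← ih, ← Finset.sum_add_distrib]
    simp only [h4, Finset.mul_sum]
    rw [Finset.sum_comm]
    refine Finset.sum_congr rfl fun p _ => ?_
    rw [Finset.sum_mul, ← Finset.sum_add_distrib]
    refine Finset.sum_congr rfl fun l _ => ?_
    ring

/-- The derivatives of the Taylor series. -/
theorem th_pderiv (hcomm : ∀ l m a, E l (E m a) = E m (E l a)) (N : ℕ) (a : Ω) (l : Fin n) :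
    pderiv l (th E (N + 1) a) = th E N (E l a) := by
  classical
  induction N generalizing a with
  | zero =>
    rw [th_succ, pderiv_C_mul, Nat.cast_zero, zero_add, inv_one, C_1, one_mul, map_sum,
      Finset.sum_eq_single l]
    · rw [pderiv_mul, pderiv_X_self, one_mul, th_zero, pderiv_C, mul_zero, add_zero]
    · intro m _ hm
      rw [pderiv_mul, pderiv_X_of_ne hm, zero_mul, th_zero, pderiv_C, mul_zero, add_zero]
    · intro h
      exact (h (Finset.mem_univ _)).elim
  | succ N ih =>
    have h : ((N + 1 : ℕ) + 1 : Ω) ≠ 0 := Nat.cast_add_one_ne_zero (N + 1)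
    rw [th_succ, pderiv_C_mul, map_sum]
    have h1 : ∀ m, pderiv l (X m * th E (N + 1) (E m a)) =
        (if m = l then th E (N + 1) (E m a) else 0) + X m * th E N (E m (E l a)) := by
      intro m
      rw [pderiv_mul, ih, hcomm l m]
      congr 1
      by_cases hm : m = l
      · rw [if_pos hm, hm, pderiv_X_self, one_mul]
      · rw [if_neg hm, pderiv_X_of_ne hm, zero_mul]
    simp only [h1]
    rw [Finset.sum_add_distrib, Finset.sum_ite_eq' Finset.univ l, if_pos (Finset.mem_univ _),
      ← th_succ']
    have h2 : th E (N + 1) (E l a) + C (N + 1 : Ω) * th E (N + 1) (E l a) =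
        C ((N + 1 : ℕ) + 1 : Ω) * th E (N + 1) (E l a) := by
      rw [C_add (a := ((N + 1 : ℕ) : Ω)), C_1, Nat.cast_succ]
      ring
    rw [h2, ← mul_assoc, ← C_mul, inv_mul_cancel₀ h, C_1, one_mul]

/-- The Taylor series of elements which are independent over the constants are independent. -/
theorem th_indep (hcomm : ∀ l m a, E l (E m a) = E m (E l a))
    (hconst : ∀ a, (∀ l, E l a = 0) → ∃ c : k, algebraMap k Ω c = a) {ι : Type*} [Fintype ι]
    {w : ι → Ω} (hw : LinearIndependent k w) {c : ι → Ω}
    (hc : ∀ N, ∑ i, C (c i) * th E N (w i) = 0) : ∀ i, c i = 0 := by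
  classical
  -- all derivatives
  let d : List (Fin n) → Ω → Ω := fun L a => L.foldr (fun l b => E l b) a
  have h1 : ∀ (L : List (Fin n)) (N : ℕ), ∑ i, C (c i) * th E N (d L (w i)) = 0 := by
    intro L
    induction L with
    | nil => exact hc
    | cons l L ih =>
      intro N
      have h2 := congrArg (pderiv l) (ih (N + 1))
      rw [map_sum, map_zero] at h2
      rw [← h2]
      refine Finset.sum_congr rfl fun i _ => ?_
      rw [pderiv_C_mul, th_pderiv E hcomm]
      rfl
  have hrel : ∀ L : List (Fin n), ∑ i, c i * d L (w i) = 0 := by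
    intro L
    have h2 := h1 L 0
    simp only [th_zero, ← C_mul, ← map_sum] at h2
    exact C_eq_zero.1 h2
  clear hc h1
  by_contra hcon
  -- minimal relation
  have key : ∀ m : ℕ, ∀ c : ι → Ω, (∀ L : List (Fin n), ∑ i, c i * d L (w i) = 0) →
      (Finset.univ.filter fun i => c i ≠ 0).card ≤ m → ∀ i, c i = 0 := by
    intro m
    induction m with
    | zero =>
      intro c _ hm i
      by_contra h
      have h1 : i ∈ (Finset.univ.filter fun i => c i ≠ 0) :=
        Finset.mem_filter.2 ⟨Finset.mem_univ _, h⟩
      rw [Finset.card_eq_zero.1 (Nat.le_zero.1 hm)] at h1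
      exact absurd h1 (Finset.notMem_empty _)
    | succ m ih =>
      intro c hc hm
      by_contra hne
      push Not at hne
      obtain ⟨i₀, hi₀⟩ := hne
      -- normalize
      let c' : ι → Ω := fun i => c i / c i₀
      have hc' : ∀ L : List (Fin n), ∑ i, c' i * d L (w i) = 0 := by
        intro L
        have h2 : ∑ i, c' i * d L (w i) = (c i₀)⁻¹ * ∑ i, c i * d L (w i) := by
          rw [Finset.mul_sum]
          refine Finset.sum_congr rfl fun i _ => ?_
          show c i / c i₀ * _ = _
          ring
        rw [h2, hc L, mul_zero]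
      have hder : ∀ l : Fin n, ∀ i, E l (c' i) = 0 := by
        intro l
        refine ih (fun i => E l (c' i)) (fun L => ?_) ?_
        · have h2 := congrArg (E l) (hc' L)
          rw [map_sum, map_zero] at h2
          have h3 := hc' (l :: L)
          rw [← h2, ← sub_eq_zero, ← Finset.sum_sub_distrib, ← neg_eq_zero, ←
            Finset.sum_neg_distrib]
          rw [← h3]
          refine Finset.sum_congr rfl fun i _ => ?_
          rw [Derivation.leibniz]
          show _ = c' i * E l (d L (w i))
          rw [smul_eq_mul, smul_eq_mul]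
          ring
        · have h2 : (Finset.univ.filter fun i => E l (c' i) ≠ 0) ⊆
              (Finset.univ.filter fun i => c i ≠ 0).erase i₀ := by
            intro i hi
            have hi' := (Finset.mem_filter.1 hi).2
            rw [Finset.mem_erase]
            refine ⟨?_, Finset.mem_filter.2 ⟨Finset.mem_univ _, ?_⟩⟩
            · rintro rfl
              apply hi'
              show E l (c i / c i) = 0
              rw [div_self hi₀, Derivation.map_one_eq_zero]
            · intro h0
              apply hi'
              show E l (c i / c i₀) = 0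
              rw [h0, zero_div, map_zero]
          have h3 := Finset.card_le_card h2
          have h4 : ((Finset.univ.filter fun i => c i ≠ 0).erase i₀).card + 1 =
              (Finset.univ.filter fun i => c i ≠ 0).card :=
            Finset.card_erase_add_one (Finset.mem_filter.2 ⟨Finset.mem_univ _, hi₀⟩)
          omega
      choose e he using fun i => hconst (c' i) fun l => hder l i
      have h5 : ∑ i, e i • w i = 0 := by
        have h6 := hc' []
        rw [← h6]
        refine Finset.sum_congr rfl fun i _ => ?_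
        rw [Algebra.smul_def, he]
        rfl
      have h6 := Fintype.linearIndependent_iff.1 hw e h5 i₀
      have h7 := he i₀
      rw [h6, map_zero] at h7
      have h8 : c' i₀ = 1 := div_self hi₀
      rw [h8] at h7
      exact zero_ne_one h7
  exact hcon (key _ c hrel le_rfl)

end

end Pool.Agent.H891.TY
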