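import Pool.Agent.H891.TY.Lead

/-! The values of the Taylor series. -/

set_option autoImplicit false
set_option linter.unusedSectionVars false

open MvPolynomial

namespace Pool.Agent.H891.TY

section

variable {Ω : Type*} [Field Ω] [CharZero Ω] {n : ℕ}

/-- The coefficient at the exponent `(N, e)` after the change of variables. -/
noncomputable def cf (g : Matrix (Fin n) (Fin n) Ω) (N : ℕ) (e : Fin n →₀ ℕ)
    (y : PowerSeries (MvPolynomial (Fin n) Ω)) : Ω :=
  coeff e (sb g (PowerSeries.coeff N y))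

/-- The order of a power series. -/
noncomputable def od (y : PowerSeries (MvPolynomial (Fin n) Ω)) : ℕ := y.order.toNat

/-- The leading exponent of the lowest coefficient. -/
noncomputable def ex (g : Matrix (Fin n) (Fin n) Ω) (y : PowerSeries (MvPolynomial (Fin n) Ω)) :
    Fin n →₀ ℕ :=
  (lx n).degree (sb g (PowerSeries.coeff (od y) y))

/-- The type of the values. -/
abbrev Vt (n : ℕ) : Type := WithBot (Lex (ℕᵒᵈ × Lex (Fin n →₀ ℕ)))

open scoped Classical in
/-- The value of a power series. -/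
noncomputable def vl (g : Matrix (Fin n) (Fin n) Ω) (y : PowerSeries (MvPolynomial (Fin n) Ω)) :
    Vt n :=
  if y = 0 then ⊥ else ((toLex (OrderDual.toDual (od y), toLex (ex g y)) :
    Lex (ℕᵒᵈ × Lex (Fin n →₀ ℕ))) : Vt n)

variable {g : Matrix (Fin n) (Fin n) Ω}

theorem vl_zero : vl g (0 : PowerSeries (MvPolynomial (Fin n) Ω)) = ⊥ := by
  classical
  exact if_pos rfl

theorem vl_ne {y : PowerSeries (MvPolynomial (Fin n) Ω)} (hy : y ≠ 0) :
    vl g y = ((toLex (OrderDual.toDual (od y), toLex (ex g y)) :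
      Lex (ℕᵒᵈ × Lex (Fin n →₀ ℕ))) : Vt n) := by
  classical
  exact if_neg hy

theorem coeff_od {y : PowerSeries (MvPolynomial (Fin n) Ω)} (hy : y ≠ 0) :
    PowerSeries.coeff (od y) y ≠ 0 := PowerSeries.coeff_order hy

theorem coeff_lt_od {y : PowerSeries (MvPolynomial (Fin n) Ω)} {i : ℕ} (hi : i < od y) :
    PowerSeries.coeff i y = 0 := PowerSeries.coeff_of_lt_order_toNat i hi

theorem cf_ne (hg : g.det ≠ 0) {y : PowerSeries (MvPolynomial (Fin n) Ω)} (hy : y ≠ 0) :
    cf g (od y) (ex g y) y ≠ 0 := by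
  have h1 : sb g (PowerSeries.coeff (od y) y) ≠ 0 := by
    rw [Ne, map_eq_zero_iff _ (sb_inj hg)]
    exact coeff_od hy
  exact MonomialOrder.coeff_degree_ne_zero_iff.2 h1

theorem cf_gt {y : PowerSeries (MvPolynomial (Fin n) Ω)} {e : Fin n →₀ ℕ}
    (he : toLex (ex g y) < toLex e) : cf g (od y) e y = 0 :=
  MonomialOrder.coeff_eq_zero_of_lt (m := lx n) (MonomialOrder.lex_lt_iff.2 he)

theorem cf_sum {ι : Type*} (s : Finset ι) (N : ℕ) (e : Fin n →₀ ℕ)
    (y : ι → PowerSeries (MvPolynomial (Fin n) Ω)) :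
    cf g N e (∑ i ∈ s, y i) = ∑ i ∈ s, cf g N e (y i) := by
  unfold cf
  rw [map_sum, map_sum, coeff_sum]

theorem coeff_smul' (c : Ω) (N : ℕ) (y : PowerSeries (MvPolynomial (Fin n) Ω)) :
    PowerSeries.coeff N (c • y) = c • PowerSeries.coeff N y := rfl

theorem cf_sub (N : ℕ) (e : Fin n →₀ ℕ) (y y' : PowerSeries (MvPolynomial (Fin n) Ω)) (c : Ω) :
    cf g N e (y - c • y') = cf g N e y - c * cf g N e y' := by
  unfold cf
  rw [map_sub, map_sub, coeff_sub, coeff_smul', map_smul, coeff_smul, smul_eq_mul]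

theorem lt_iff_vl {y y' : PowerSeries (MvPolynomial (Fin n) Ω)} (hy : y ≠ 0) (hy' : y' ≠ 0) :
    vl g y < vl g y' ↔ od y' < od y ∨ od y = od y' ∧ toLex (ex g y) < toLex (ex g y') := by
  rw [vl_ne hy, vl_ne hy', WithBot.coe_lt_coe, Prod.Lex.toLex_lt_toLex]
  exact Iff.rfl

theorem vl_lt_of (hg : g.det ≠ 0) {y y₀ : PowerSeries (MvPolynomial (Fin n) Ω)} (hy₀ : y₀ ≠ 0)
    (h1 : ∀ i < od y₀, PowerSeries.coeff i y = 0)
    (h2 : ∀ e, toLex (ex g y₀) ≤ toLex e → cf g (od y₀) e y = 0) : vl g y < vl g y₀ := by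
  by_cases hy : y = 0
  · rw [hy, vl_zero, vl_ne hy₀]
    exact WithBot.bot_lt_coe _
  rw [lt_iff_vl hy hy₀]
  rcases lt_trichotomy (od y) (od y₀) with h | h | h
  · exact (coeff_od hy (h1 _ h)).elim
  · right
    refine ⟨h, ?_⟩
    by_contra hcon
    push Not at hcon
    have h3 := h2 _ hcon
    rw [← h] at h3
    exact cf_ne hg hy h3
  · exact Or.inl h

theorem vl_eq_iff {y y' : PowerSeries (MvPolynomial (Fin n) Ω)} (hy : y ≠ 0) (hy' : y' ≠ 0) :
    vl g y = vl g y' ↔ od y = od y' ∧ ex g y = ex g y' := by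
  rw [vl_ne hy, vl_ne hy', WithBot.coe_inj]
  constructor
  · intro h
    have h1 := congrArg (fun z => (ofLex z)) h
    have h2 : (OrderDual.toDual (od y), toLex (ex g y)) =
      (OrderDual.toDual (od y'), toLex (ex g y')) := h1
    exact ⟨congrArg Prod.fst h2, congrArg Prod.snd h2⟩
  · rintro ⟨h1, h2⟩
    rw [h1, h2]

/-- The value has leaves of dimension one. -/
theorem leaf (hg : g.det ≠ 0) {y y' : PowerSeries (MvPolynomial (Fin n) Ω)} (hy' : y' ≠ 0)
    (h : vl g y = vl g y') : ∃ c : Ω, vl g (y - c • y') < vl g y := by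
  have hy : y ≠ 0 := by
    rintro rfl
    rw [vl_zero, vl_ne hy'] at h
    exact WithBot.coe_ne_bot h.symm
  obtain ⟨h1, h2⟩ := (vl_eq_iff hy hy').1 h
  refine ⟨cf g (od y) (ex g y) y / cf g (od y) (ex g y) y', vl_lt_of hg hy ?_ ?_⟩
  · intro i hi
    rw [map_sub, coeff_smul', coeff_lt_od hi, coeff_lt_od (h1 ▸ hi), smul_zero, sub_zero]
  · intro e he
    rw [cf_sub]
    rcases he.eq_or_lt with h3 | h3
    · have h4 : ex g y = e := h3
      rw [← h4, div_mul_cancel₀, sub_self]
      rw [h1, h2]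
      exact cf_ne hg hy'
    · have h5 : cf g (od y) e y' = 0 := by
        rw [h1]
        exact cf_gt (h2 ▸ h3)
      rw [cf_gt h3, h5, mul_zero, sub_zero]

/-- Two terms of a vanishing sum have the same value. -/
theorem two_eq (hg : g.det ≠ 0) {ι : Type*} {s : Finset ι} (hs : s.Nonempty)
    {y : ι → PowerSeries (MvPolynomial (Fin n) Ω)} (hy : ∀ i ∈ s, y i ≠ 0)
    (hsum : ∑ i ∈ s, y i = 0) : ∃ i ∈ s, ∃ i' ∈ s, i ≠ i' ∧ vl g (y i) = vl g (y i') := by
  classical
  by_contra hcon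
  push Not at hcon
  obtain ⟨i₀, hi₀, hmax⟩ := s.exists_max_image (fun i => vl g (y i)) hs
  have h1 := congrArg (cf g (od (y i₀)) (ex g (y i₀))) hsum
  rw [cf_sum, Finset.sum_eq_single i₀] at h1
  · apply cf_ne hg (hy _ hi₀)
    rw [h1]
    unfold cf
    rw [map_zero, map_zero, coeff_zero]
  · intro i hi hne
    have h2 : vl g (y i) < vl g (y i₀) :=
      lt_of_le_of_ne (hmax i hi) (hcon i hi i₀ hi₀ hne)
    rw [lt_iff_vl (hy i hi) (hy _ hi₀)] at h2
    rcases h2 with h2 | ⟨h2, h3⟩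
    · unfold cf
      rw [coeff_lt_od h2, map_zero, coeff_zero]
    · rw [← h2]
      exact cf_gt h3
  · intro h
    exact (h hi₀).elim

theorem coeff_mul_od (a y : PowerSeries (MvPolynomial (Fin n) Ω)) :
    PowerSeries.coeff (od a + od y) (a * y) =
      PowerSeries.coeff (od a) a * PowerSeries.coeff (od y) y := by
  rw [PowerSeries.coeff_mul, Finset.sum_eq_single (od a, od y)]
  · rintro ⟨i, j⟩ hij hne
    have h2 : i + j = od a + od y := Finset.HasAntidiagonal.mem_antidiagonal.1 hij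
    rcases lt_trichotomy i (od a) with h | h | h
    · show PowerSeries.coeff i a * _ = 0
      rw [coeff_lt_od h, zero_mul]
    · exact (hne (by rw [h, show j = od y by omega])).elim
    · show _ * PowerSeries.coeff j y = 0
      rw [coeff_lt_od (show j < od y by omega), mul_zero]
  · intro h
    exact (h (Finset.HasAntidiagonal.mem_antidiagonal.2 rfl)).elim

theorem od_mul {a y : PowerSeries (MvPolynomial (Fin n) Ω)} (ha : a ≠ 0) (hy : y ≠ 0) :
    od (a * y) = od a + od y := by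
  unfold od
  rw [PowerSeries.order_mul, ENat.toNat_add]
  · exact (PowerSeries.order_finite_iff_ne_zero.2 ha).ne
  · exact (PowerSeries.order_finite_iff_ne_zero.2 hy).ne

theorem ex_mul (hg : g.det ≠ 0) {a y : PowerSeries (MvPolynomial (Fin n) Ω)} (ha : a ≠ 0)
    (hy : y ≠ 0) : ex g (a * y) = ex g a + ex g y := by
  unfold ex
  rw [od_mul ha hy, coeff_mul_od, map_mul, MonomialOrder.degree_mul]
  · rw [Ne, map_eq_zero_iff _ (sb_inj hg)]
    exact coeff_od ha
  · rw [Ne, map_eq_zero_iff _ (sb_inj hg)]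
    exact coeff_od hy

/-- homogeneous coefficients -/
theorem ex_degree (hg : g.det ≠ 0) {y : PowerSeries (MvPolynomial (Fin n) Ω)} (hy : y ≠ 0)
    (hhom : (PowerSeries.coeff (od y) y).IsHomogeneous (od y)) :
    Finsupp.degree (ex g y) = od y := by
  have h1 := sb_hom g hhom
  by_contra hcon
  exact cf_ne hg hy (h1.coeff_eq_zero hcon)

end

end Pool.Agent.H891.TY
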